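import Pool.Agent.Helper72.TH.MainA
import Pool.Agent.Helper72.TH.DmlHit

/-!
# Orbits which meet the invariant hypersurface modulo a good place

Either the cycle modulo the place is not critical, and interpolation applies, or it is the
reduction of a critical cycle of the invariant hypersurface.
-/

set_option autoImplicit false

namespace Pool.Agent.Helper41.R1

open MvPolynomial Height Height.AdmissibleAbsValues
open Pool.Agent.Helper36 (step iter)
open Pool.Agent.Helper29.TG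
open Pool.Agent.Helper72.TH
open Pool.Agent.Helper30.TKN (jf)

variable {ν : ℕ} {K : Type} [Field K] {v : AbsoluteValue K ℝ}

/-- Congruence is transitive. -/
theorem cong_trans (hv : IsNonarchimedean v) {x y z : Fin (ν + 1) → K} (hx : x ≠ 0) (hy : y ≠ 0)
    (hz : z ≠ 0) (h1 : Cong v x y) (h2 : Cong v y z) : Cong v x z := by
  have hX := nm_pos v hx
  have hY := nm_pos v hy
  have hZ := nm_pos v hz
  obtain ⟨p, -, hp⟩ := exists_nm_eq v hy
  unfold Cong at h1 h2 ⊢
  have key : ∀ q, v (cr x z q) < nm v x * nm v z := by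
    intro q
    have e : y p * cr x z q = (x q.1 * cr y z (p, q.2) - x q.2 * cr y z (p, q.1)) +
        z p * cr x y q := by
      simp only [cr]
      ring
    have b1 : v (x q.1 * cr y z (p, q.2)) < nm v x * (nm v y * nm v z) := by
      rw [map_mul]
      exact lt_of_le_of_lt (mul_le_mul (le_nm v x q.1) (le_nm v (cr y z) _) (v.nonneg _) hX.le)
        (mul_lt_mul_of_pos_left h2 hX)
    have b2 : v (x q.2 * cr y z (p, q.1)) < nm v x * (nm v y * nm v z) := by
      rw [map_mul]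
      exact lt_of_le_of_lt (mul_le_mul (le_nm v x q.2) (le_nm v (cr y z) _) (v.nonneg _) hX.le)
        (mul_lt_mul_of_pos_left h2 hX)
    have b3 : v (z p * cr x y q) < nm v x * (nm v y * nm v z) := by
      rw [map_mul]
      have := lt_of_le_of_lt (mul_le_mul (le_nm v z p) (le_nm v (cr x y) q) (v.nonneg _) hZ.le)
        (mul_lt_mul_of_pos_left h1 hZ)
      linarith
    have b4 : v (y p * cr x z q) < nm v x * (nm v y * nm v z) := by
      rw [e]
      refine (hv _ _).trans_lt (max_lt ?_ b3)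
      rw [sub_eq_add_neg]
      refine (hv _ _).trans_lt (max_lt b1 ?_)
      rwa [v.map_neg]
    rw [map_mul, ← hp] at b4
    have : nm v y * v (cr x z q) < nm v y * (nm v x * nm v z) := by linarith
    exact lt_of_mul_lt_mul_left this hY.le
  obtain ⟨q, hq⟩ : ∃ q, v (cr x z q) = nm v (cr x z) := exists_eq_ciSup_of_finite
  rw [← hq]
  exact key q

theorem cong_smul {x y : Fin (ν + 1) → K} {s : K} (hs : s ≠ 0) :
    Cong v x (fun i => s * y i) ↔ Cong v x y := by
  unfold Cong
  have e1 : cr x (fun i => s * y i) = s • cr x y := by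
    funext q
    simp only [cr, Pi.smul_apply, smul_eq_mul]
    ring
  have e2 : (fun i => s * y i) = s • y := rfl
  rw [e1, e2, nm_smul, nm_smul]
  have h : 0 < v s := v.pos hs
  constructor
  · intro h1
    have h2 : v s * nm v (cr x y) < v s * (nm v x * nm v y) := by linarith
    exact lt_of_mul_lt_mul_left h2 h.le
  · intro h1
    have h2 : v s * nm v (cr x y) < v s * (nm v x * nm v y) := mul_lt_mul_of_pos_left h1 h
    linarith

/-- The finite invariant set of points on the invariant hypersurface. -/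
structure CritD (L : Type) [Field L] [Algebra K L]
    (F : Fin (ν + 1) → MvPolynomial (Fin (ν + 1)) K) (P R : MvPolynomial (Fin (ν + 1)) K) {s : ℕ}
    (c : Fin s → Fin (ν + 1) → K) (σ : Fin s → Fin s) (t : Fin s → K) : Prop where
  ne : ∀ i, c i ≠ 0
  tne : ∀ i, t i ≠ 0
  next : ∀ i, step F (c i) = fun j => t i * c (σ i) j
  dist : ∀ i j, i ≠ j → cr (c i) (c j) ≠ 0
  onP : ∀ i, eval (c i) P = 0
  Rne : ∀ i, (∃ p, 1 ≤ p ∧ σ^[p] i = i) → eval (c i) R ≠ 0
  cover : ∀ x : Fin (ν + 1) → L, aeval x P = 0 → aeval x (jf F * R) = 0 →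
    ∃ i, cr x (fun l => algebraMap K L (c i l)) = 0

/-- The same modulo `v`. -/
structure CritV (v : AbsoluteValue K ℝ) (F : Fin (ν + 1) → MvPolynomial (Fin (ν + 1)) K) (d : ℕ)
    (P R : MvPolynomial (Fin (ν + 1)) K) (δ r : ℕ) {s : ℕ} (c : Fin s → Fin (ν + 1) → K) :
    Prop where
  P_int : ∀ m, v (P.coeff m) ≤ 1
  R_int : ∀ m, v (R.coeff m) ≤ 1
  jf_int : ∀ m, v ((jf F).coeff m) ≤ 1
  nm_c : ∀ i, nm v (c i) = 1
  cover : ∀ x : Fin (ν + 1) → K, x ≠ 0 → Sm v P δ x →
    Sm v (jf F * R) ((ν + 1) * (d - 1) + r) x → ∃ i, Cong v x (c i)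
  dist : ∀ i j, i ≠ j → ¬ Cong v (c i) (c j)
  jf_ne : ∀ i, eval (c i) (jf F) ≠ 0 → ¬ Sm v (jf F) ((ν + 1) * (d - 1)) (c i)

theorem exists_vunit [AdmissibleAbsValues K] {a : K} (ha : a ≠ 0) :
    ∃ B : Set (AbsoluteValue K ℝ), B.Finite ∧ ∀ v ∈ nonarchAbsVal (K := K), v ∉ B → v a = 1 := by
  obtain ⟨B, hB, h⟩ := Pool.Agent.Helper72.PN.exists_fin_good (K := K) {a}
  exact ⟨B, hB, fun v hv hvB =>
    (h v hv hvB a (Finset.mem_singleton_self a)).resolve_left ha⟩

theorem exists_vint [AdmissibleAbsValues K] (P : MvPolynomial (Fin (ν + 1)) K) :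
    ∃ B : Set (AbsoluteValue K ℝ), B.Finite ∧ ∀ v ∈ nonarchAbsVal (K := K), v ∉ B →
      ∀ m, v (P.coeff m) ≤ 1 := by
  classical
  obtain ⟨B, hB, h⟩ := Pool.Agent.Helper72.PN.exists_fin_good (K := K)
    (P.support.image fun m => P.coeff m)
  refine ⟨B, hB, fun v hv hvB m => ?_⟩
  by_cases hm : P.coeff m = 0
  · rw [hm, map_zero]
    exact zero_le_one
  · rcases h v hv hvB _ (Finset.mem_image.2 ⟨m, mem_support_iff.2 hm, rfl⟩) with h1 | h1
    · exact absurd h1 hm
    · exact h1.le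

/-- The linear form `X_a w_b - X_b w_a`. -/
noncomputable def lw (w : Fin (ν + 1) → K) (q : Fin (ν + 1) × Fin (ν + 1)) :
    MvPolynomial (Fin (ν + 1)) K := X q.1 * C (w q.2) - X q.2 * C (w q.1)

theorem lw_hom (w : Fin (ν + 1) → K) (q : Fin (ν + 1) × Fin (ν + 1)) :
    (lw w q).IsHomogeneous 1 :=
  IsHomogeneous.sub ((isHomogeneous_X K q.1).mul (isHomogeneous_C _ (w q.2)))
    ((isHomogeneous_X K q.2).mul (isHomogeneous_C _ (w q.1)))

theorem aeval_lw {A : Type} [CommRing A] [Algebra K A] (w : Fin (ν + 1) → K)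
    (q : Fin (ν + 1) × Fin (ν + 1)) (x : Fin (ν + 1) → A) :
    aeval x (lw w q) = x q.1 * algebraMap K A (w q.2) - x q.2 * algebraMap K A (w q.1) := by
  simp [lw]

theorem exists_critV [AdmissibleAbsValues K] {L : Type} [Field L] [IsAlgClosed L] [Algebra K L]
    {F : Fin (ν + 1) → MvPolynomial (Fin (ν + 1)) K} {d : ℕ}
    (hJ : (jf F).IsHomogeneous ((ν + 1) * (d - 1)))
    {P R : MvPolynomial (Fin (ν + 1)) K} {δ r : ℕ} (hP : P.IsHomogeneous δ)
    (hR : R.IsHomogeneous r) {s : ℕ} {c : Fin s → Fin (ν + 1) → K} {σ : Fin s → Fin s}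
    {t : Fin s → K} (hc : CritD L F P R c σ t) :
    ∃ B : Set (AbsoluteValue K ℝ), B.Finite ∧ ∀ v ∈ nonarchAbsVal (K := K), v ∉ B →
      CritV v F d P R δ r c := by
  classical
  obtain ⟨B₁, hB₁, h₁⟩ := exists_vint P
  obtain ⟨B₂, hB₂, h₂⟩ := exists_vint R
  obtain ⟨B₃, hB₃, h₃⟩ := ChainM_all (K := K) (ι := Fin s)
    (P := fun i v => nm v (c i) = 1) fun i => by
      obtain ⟨j, hj⟩ := Function.ne_iff.1 (hc.ne i)
      obtain ⟨B, hB, hg⟩ := Pool.Agent.Helper72.PN.exists_fin_good (K := K)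
        (Finset.univ.image fun l => c i l)
      refine ⟨B, hB, fun v hv hvB => le_antisymm ?_ ?_⟩
      · refine nm_le zero_le_one fun l => ?_
        rcases hg v hv hvB _ (Finset.mem_image.2 ⟨l, Finset.mem_univ l, rfl⟩) with h1 | h1
        · rw [h1, map_zero]
          exact zero_le_one
        · exact h1.le
      · rcases hg v hv hvB _ (Finset.mem_image.2 ⟨j, Finset.mem_univ j, rfl⟩) with h1 | h1
        · exact absurd h1 hj
        · rw [← h1]
          exact le_nm v (c i) j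
  obtain ⟨B₄, hB₄, h₄⟩ := ChainM_all (K := K) (ι := Fin s → Fin (ν + 1) × Fin (ν + 1))
    (P := fun q v => ∀ x : Fin (ν + 1) → K, x ≠ 0 → Sm v P δ x →
      Sm v (jf F * R) ((ν + 1) * (d - 1) + r) x → Sm v (∏ i, lw (c i) (q i)) s x) fun q => by
      have hhom : (∏ i, lw (c i) (q i)).IsHomogeneous s := by
        have := IsHomogeneous.prod Finset.univ (fun i => lw (c i) (q i)) (fun _ => 1)
          fun i _ => lw_hom (c i) (q i)
        simpa using this
      obtain ⟨B, hB, hg⟩ := exists_sm (K := K) (L := L) (ι := Bool)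
        (h := fun b => if b then P else jf F * R)
        (δ := fun b => if b then δ else (ν + 1) * (d - 1) + r)
        (fun b => by
          cases b
          · exact hJ.mul hR
          · exact hP)
        (g := ∏ i, lw (c i) (q i)) (e := s) hhom fun x hx => by
          obtain ⟨i, hi⟩ := hc.cover x (hx true) (hx false)
          rw [map_prod]
          refine Finset.prod_eq_zero (Finset.mem_univ i) ?_
          rw [aeval_lw]
          exact congrFun hi (q i)
      exact ⟨B, hB, fun v hv hvB x hx h1 h2 => hg v hv hvB x hx fun b => by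
        cases b
        · exact h2
        · exact h1⟩
  obtain ⟨B₅, hB₅, h₅⟩ := ChainM_all (K := K) (ι := Fin s × Fin s)
    (P := fun p v => nm v (c p.1) = 1 → nm v (c p.2) = 1 → p.1 ≠ p.2 →
      ¬ Cong v (c p.1) (c p.2)) fun p => by
      by_cases hp : p.1 = p.2
      · exact ⟨∅, Set.finite_empty, fun v _ _ _ _ h => absurd hp h⟩
      · obtain ⟨q, hq⟩ := Function.ne_iff.1 (hc.dist p.1 p.2 hp)
        obtain ⟨B, hB, hg⟩ := exists_vunit (K := K) hq
        refine ⟨B, hB, fun v hv hvB h1 h2 _ h3 => ?_⟩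
        unfold Cong at h3
        rw [h1, h2, mul_one] at h3
        have h4 := le_nm v (cr (c p.1) (c p.2)) q
        rw [hg v hv hvB] at h4
        linarith
  obtain ⟨B₆, hB₆, h₆⟩ := ChainM_all (K := K) (ι := Fin s)
    (P := fun i v => nm v (c i) = 1 → eval (c i) (jf F) ≠ 0 →
      ¬ Sm v (jf F) ((ν + 1) * (d - 1)) (c i)) fun i => by
      by_cases hi : eval (c i) (jf F) = 0
      · exact ⟨∅, Set.finite_empty, fun v _ _ _ h => absurd hi h⟩
      · obtain ⟨B, hB, hg⟩ := exists_vunit (K := K) hi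
        refine ⟨B, hB, fun v hv hvB h1 _ h2 => ?_⟩
        unfold Sm at h2
        rw [h1, one_pow, hg v hv hvB] at h2
        exact lt_irrefl _ h2
  obtain ⟨B₇, hB₇, h₇⟩ := exists_vint (jf F)
  refine ⟨B₁ ∪ (B₂ ∪ (B₃ ∪ (B₄ ∪ (B₅ ∪ (B₆ ∪ B₇))))),
    hB₁.union (hB₂.union (hB₃.union (hB₄.union (hB₅.union (hB₆.union hB₇))))),
    fun v hv hvB => ?_⟩
  simp only [Set.mem_union, not_or] at hvB
  obtain ⟨hv1, hv2, hv3, hv4, hv5, hv6, hv7⟩ := hvB
  have hn := h₃ v hv hv3
  refine ⟨h₁ v hv hv1, h₂ v hv hv2, h₇ v hv hv7, hn, fun x hx hp hj => ?_, fun i j hij =>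
    h₅ v hv hv5 (i, j) (hn i) (hn j) hij, fun i hi => h₆ v hv hv6 i (hn i) hi⟩
  by_contra hcon
  push Not at hcon
  have h7 : ∀ i, ∃ q, v (cr x (c i) q) = nm v (cr x (c i)) := fun i => exists_eq_ciSup_of_finite
  choose q hq using h7
  have h8 := h₄ v hv hv4 q x hx hp hj
  unfold Sm at h8
  rw [map_prod, map_prod] at h8
  have h9 : ∀ i, v (eval x (lw (c i) (q i))) = nm v (cr x (c i)) := by
    intro i
    rw [← hq i]
    have := aeval_lw (c i) (q i) x
    rw [aeval_eq_eval] at this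
    rw [this]
    rfl
  have h10 : nm v x ^ s ≤ ∏ i, v (eval x (lw (c i) (q i))) := by
    have : nm v x ^ s = ∏ _i : Fin s, nm v x := by simp
    rw [this]
    refine Finset.prod_le_prod (fun i _ => nm_nonneg v x) fun i _ => ?_
    rw [h9]
    have h11 := hcon i
    unfold Cong at h11
    rwa [not_lt, hn i, mul_one] at h11
  linarith

theorem next_iter {L : Type} [Field L] [Algebra K L]
    {F : Fin (ν + 1) → MvPolynomial (Fin (ν + 1)) K} {d : ℕ} (hF : ∀ i, (F i).IsHomogeneous d)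
    {P R : MvPolynomial (Fin (ν + 1)) K} {s : ℕ} {c : Fin s → Fin (ν + 1) → K}
    {σ : Fin s → Fin s} {t : Fin s → K} (hc : CritD L F P R c σ t) (i : Fin s) (n : ℕ) :
    ∃ u : K, u ≠ 0 ∧ iter F (c i) n = fun j => u * c (σ^[n] i) j := by
  induction n with
  | zero => exact ⟨1, one_ne_zero, by simp [Pool.Agent.Helper36.iter_zero]⟩
  | succ n ih =>
    obtain ⟨u, hu, h⟩ := ih
    refine ⟨u ^ d * t (σ^[n] i), mul_ne_zero (pow_ne_zero _ hu) (hc.tne _), ?_⟩
    rw [Pool.Agent.Helper36.iter_succ, h]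
    funext j
    have h1 : step F (fun j => u * c (σ^[n] i) j) j = u ^ d * step F (c (σ^[n] i)) j :=
      Pool.Agent.Helper36.aeval_smul_homogeneous (hF j) u _
    rw [h1, hc.next, Function.iterate_succ_apply']
    ring

/-- The orbit stays on the hypersurface modulo `v`. -/
theorem sm_next {F : Fin (ν + 1) → MvPolynomial (Fin (ν + 1)) K} {d : ℕ}
    (hG : GoodF v F d) {P R : MvPolynomial (Fin (ν + 1)) K} {δ r : ℕ} (hr : r + δ = d * δ)
    (hR : R.IsHomogeneous r) (hRi : ∀ m, v (R.coeff m) ≤ 1) (hinv : aeval F P = P * R)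
    {x : Fin (ν + 1) → K} (hx : x ≠ 0) (h : Sm v P δ x) : Sm v P δ (step F x) := by
  have hX := nm_pos v hx
  unfold Sm at h ⊢
  have h1 : eval (step F x) P = eval x P * eval x R := by
    have h2 := ChainM_eval (F := F) P x
    rw [← h2, hinv, map_mul]
  rw [h1, map_mul, hG.F_nm, ← pow_mul]
  have h3 := Pool.Agent.Helper72.PN.KeyN_eval_le hG.na hR hRi x
  calc v (eval x P) * v (eval x R) ≤ v (eval x P) * nm v x ^ r :=
        mul_le_mul_of_nonneg_left h3 (v.nonneg _)
    _ < nm v x ^ δ * nm v x ^ r := mul_lt_mul_of_pos_right h (pow_pos hX _)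
    _ = nm v x ^ (d * δ) := by rw [← pow_add, add_comm δ r, hr]

/-- The cycle modulo `v`. -/
theorem hit_cycle {K : Type} [Field K] [NumberField K] {v : AbsoluteValue K ℝ}
    {F : Fin (ν + 1) → MvPolynomial (Fin (ν + 1)) K} {d : ℕ} (hF : ∀ i, (F i).IsHomogeneous d)
    (hv : v ∈ nonarchAbsVal (K := K)) (hG : GoodF v F d)
    {P R : MvPolynomial (Fin (ν + 1)) K} {δ r : ℕ} (hr : r + δ = d * δ)
    (hR : R.IsHomogeneous r) (hinv : aeval F P = P * R)
    {s : ℕ} {c : Fin s → Fin (ν + 1) → K} {σ : Fin s → Fin s} {t : Fin s → K}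
    {L : Type} [Field L] [Algebra K L] (hc : CritD L F P R c σ t) (hcv : CritV v F d P R δ r c)
    {x : Fin (ν + 1) → K} (hx : ∀ n, iter F x n ≠ 0)
    (hcr : ∀ n m, n ≠ m → cr (iter F x n) (iter F x m) ≠ 0)
    {n₁ : ℕ} (h0 : Sm v P δ (iter F x n₁)) :
    Pool.Agent.Helper38.Sym.DMLgen (fun i => map (algebraMap K L) (F i))
      (fun i => algebraMap K L (x i)) ∨
    ∃ (j : ℕ) (i : Fin s), Cong v (iter F x j) (c i) ∧ (∃ p, 1 ≤ p ∧ σ^[p] i = i) ∧
      eval (c i) (jf F) = 0 := by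
  have hna := hG.na
  have hJi : ∀ y : Fin (ν + 1) → K, v (eval y (jf F)) ≤ nm v y ^ ((ν + 1) * (d - 1)) := fun y =>
    Pool.Agent.Helper72.PN.KeyN_jf_le hna hF hG.F_int y
  have hfwd : ∀ l, n₁ ≤ l → Sm v P δ (iter F x l) := by
    intro l hl
    induction l, hl using Nat.le_induction with
    | base => exact h0
    | succ l' _ ih =>
      rw [Pool.Agent.Helper36.iter_succ]
      exact sm_next hG hr hR hcv.R_int hinv (hx _) ih
  obtain ⟨i₁, n₂, hi, hin, hcong⟩ := exists_cong (ν := ν) hv hx n₁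
  by_cases hun : ∀ j, i₁ ≤ j → j < n₂ → ¬ Sm v (jf F) ((ν + 1) * (d - 1)) (iter F x j)
  · left
    have hct : 0 < ct v (iter F x i₁) (iter F x n₂) := by
      have h1 := nm_pos v (hx i₁)
      have h2 := nm_pos v (hx n₂)
      have h3 := nm_pos v (hcr i₁ n₂ hin.ne)
      have h4 := Real.log_lt_log h3 hcong
      rw [Real.log_mul h1.ne' h2.ne'] at h4
      unfold ct
      linarith
    refine Pool.Agent.Helper72.PN.dml_of_place ⟨v, hv⟩ hna hF hG.F_int hG.F_nm (hx 0) hin hct ?_
    intro j hj hjn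
    have h1 := hun j hj hjn
    unfold Sm at h1
    rw [not_lt] at h1
    exact le_antisymm (hJi _) h1
  · right
    push Not at hun
    obtain ⟨j, hj, hjn, hsm⟩ := hun
    have hsm' : Sm v (jf F * R) ((ν + 1) * (d - 1) + r) (iter F x j) := by
      unfold Sm at hsm ⊢
      rw [map_mul, map_mul, pow_add]
      have h3 := Pool.Agent.Helper72.PN.KeyN_eval_le hna hR hcv.R_int (iter F x j)
      have h4 : 0 < nm v (iter F x j) := nm_pos v (hx j)
      calc v (eval (iter F x j) (jf F)) * v (eval (iter F x j) R)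
          ≤ v (eval (iter F x j) (jf F)) * nm v (iter F x j) ^ r :=
            mul_le_mul_of_nonneg_left h3 (v.nonneg _)
        _ < _ := mul_lt_mul_of_pos_right hsm (pow_pos h4 _)
    obtain ⟨i, hi'⟩ := hcv.cover _ (hx j) (hfwd j (by omega)) hsm'
    obtain ⟨q, rfl⟩ : ∃ q, n₂ = i₁ + q := ⟨n₂ - i₁, by omega⟩
    obtain ⟨l, rfl⟩ : ∃ l, j = i₁ + l := ⟨j - i₁, by omega⟩
    have hshift := cong_shift hF hG hx hcong l
    have hcn : ∀ n, iter F (c i) n ≠ 0 := by
      intro n
      obtain ⟨u, hu, h⟩ := next_iter hF hc i n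
      rw [h]
      intro h1
      apply hc.ne (σ^[n] i)
      funext k
      have h2 := congrFun h1 k
      exact (mul_eq_zero.1 h2).resolve_left hu
    have hit : Cong v (iter F x (i₁ + l + q)) (iter F (c i) q) := by
      have h1 : ∀ n, Cong v (iter F x (i₁ + l + n)) (iter F (c i) n) := by
        intro n
        induction n with
        | zero => exact hi'
        | succ n ih =>
          have h2 := Cong.step hF hG (hx _) (hcn n) ih
          rw [← Pool.Agent.Helper36.iter_succ, ← Pool.Agent.Helper36.iter_succ] at h2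
          exact h2
      exact h1 q
    obtain ⟨u, hu, hiter⟩ := next_iter hF hc i q
    rw [hiter, cong_smul hu] at hit
    have h5 : Cong v (c i) (c (σ^[q] i)) :=
      cong_trans hna (hc.ne i) (hx _) (hc.ne _)
        (cong_trans hna (hc.ne i) (hx _) (hx _) hi'.symm hshift) hit
    have h6 : σ^[q] i = i := by
      by_contra h7
      exact hcv.dist i _ (Ne.symm h7) h5
    refine ⟨i₁ + l, i, hi', ⟨q, by omega, h6⟩, ?_⟩
    by_contra h7
    refine hcv.jf_ne i h7 ?_
    exact Cong.sm hna (Pool.Agent.Helper30.TKN.jf_hom hF) hcv.jf_int (hx _) (hc.ne i) hi' hsm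

end Pool.Agent.Helper41.R1
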