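import Pool.Agent.Helper41.R1.Slow
import Pool.Agent.Helper29.TG.Df

/-!
# The orbit in the residue disc of a periodic point with one non-zero multiplier
-/

set_option autoImplicit false

namespace Pool.Agent.Helper41.R1

open MvPolynomial Filter Topology
open Pool.Agent.Helper29.TG (CoeffInt)

variable {ν : ℕ} {K : Type} [Field K] {v : AbsoluteValue K ℝ}

theorem v_sum_le (hv : IsNonarchimedean v) {ι : Type} (s : Finset ι) (f : ι → K) {r : ℝ}
    (hr : 0 ≤ r) (h : ∀ i ∈ s, v (f i) ≤ r) : v (∑ i ∈ s, f i) ≤ r := by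
  classical
  induction s using Finset.induction_on with
  | empty => simpa using hr
  | insert a s ha ih =>
    rw [Finset.sum_insert ha]
    exact (hv _ _).trans (max_le (h a (Finset.mem_insert_self a s))
      (ih fun i hi => h i (Finset.mem_insert_of_mem hi)))

theorem v_mul_sub_le (hv : IsNonarchimedean v) {a b c d : K} {ρ : ℝ} (ha : v a ≤ 1)
    (hd : v d ≤ 1) (h1 : v (a - b) ≤ ρ) (h2 : v (c - d) ≤ ρ) : v (a * c - b * d) ≤ ρ := by
  have e : a * c - b * d = a * (c - d) + (a - b) * d := by ring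
  rw [e]
  refine (hv _ _).trans (max_le ?_ ?_)
  · rw [map_mul]
    exact (mul_le_of_le_one_left (v.nonneg _) ha).trans h2
  · rw [map_mul]
    exact (mul_le_of_le_one_right (v.nonneg _) hd).trans h1

theorem v_pow_sub_le (hv : IsNonarchimedean v) {a b : K} {ρ : ℝ} (hρ : 0 ≤ ρ) (ha : v a ≤ 1)
    (hb : v b ≤ 1) (h : v (a - b) ≤ ρ) (n : ℕ) : v (a ^ n - b ^ n) ≤ ρ := by
  induction n with
  | zero => simpa using hρ
  | succ n ih =>
    rw [pow_succ, pow_succ]
    exact v_mul_sub_le hv (by rw [map_pow]; exact pow_le_one₀ (v.nonneg _) ha) hb ih h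

theorem v_prod_sub_le (hv : IsNonarchimedean v) {ι : Type} (s : Finset ι) (f g : ι → K) {ρ : ℝ}
    (hρ : 0 ≤ ρ) (hf : ∀ i, v (f i) ≤ 1) (hg : ∀ i, v (g i) ≤ 1)
    (h : ∀ i, v (f i - g i) ≤ ρ) : v (∏ i ∈ s, f i - ∏ i ∈ s, g i) ≤ ρ := by
  classical
  induction s using Finset.induction_on with
  | empty => simpa using hρ
  | insert a s ha ih =>
    rw [Finset.prod_insert ha, Finset.prod_insert ha]
    refine v_mul_sub_le hv (hf a) ?_ (h a) ih
    rw [map_prod]
    exact Finset.prod_le_one (fun i _ => v.nonneg _) fun i _ => hg i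

theorem v_eval_le (hv : IsNonarchimedean v) {p : MvPolynomial (Fin (ν + 1)) K}
    (hp : CoeffInt v p) {y : Fin (ν + 1) → K} (hy : ∀ i, v (y i) ≤ 1) : v (eval y p) ≤ 1 := by
  rw [eval_eq]
  refine v_sum_le hv _ _ zero_le_one fun m _ => ?_
  rw [map_mul, map_prod]
  refine mul_le_one₀ (hp m) (Finset.prod_nonneg fun i _ => v.nonneg _) ?_
  refine Finset.prod_le_one (fun i _ => v.nonneg _) fun i _ => ?_
  rw [map_pow]
  exact pow_le_one₀ (v.nonneg _) (hy i)

theorem v_eval_sub_le (hv : IsNonarchimedean v) {p : MvPolynomial (Fin (ν + 1)) K}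
    (hp : CoeffInt v p) {y z : Fin (ν + 1) → K} {ρ : ℝ} (hρ : 0 ≤ ρ) (hy : ∀ i, v (y i) ≤ 1)
    (hz : ∀ i, v (z i) ≤ 1) (h : ∀ i, v (y i - z i) ≤ ρ) :
    v (eval y p - eval z p) ≤ ρ := by
  rw [eval_eq, eval_eq, ← Finset.sum_sub_distrib]
  refine v_sum_le hv _ _ hρ fun m _ => ?_
  rw [← mul_sub, map_mul]
  refine (mul_le_of_le_one_left (v.nonneg _) (hp m)).trans ?_
  exact v_prod_sub_le hv _ _ _ hρ
    (fun i => by rw [map_pow]; exact pow_le_one₀ (v.nonneg _) (hy i))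
    (fun i => by rw [map_pow]; exact pow_le_one₀ (v.nonneg _) (hz i))
    (fun i => v_pow_sub_le hv hρ (hy i) (hz i) (h i) _)

/-- The orbit `y` of normalised points in the residue disc of `z`. -/
structure Disc (v : AbsoluteValue K ℝ) (i₀ : Fin (ν + 1)) (z : Fin (ν + 1) → K)
    (G : Fin (ν + 1) → MvPolynomial (Fin (ν + 1)) K) (y : ℕ → Fin (ν + 1) → K) (ρ : ℝ) :
    Prop where
  na : IsNonarchimedean v
  hρ : ρ < 1
  zle : ∀ i, v (z i) ≤ 1
  one : ∀ k, y k i₀ = 1
  le : ∀ k i, v (y k i) ≤ 1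
  close : ∀ k i, v (y k i - z i) ≤ ρ
  next : ∀ k, y (k + 1) = gam i₀ G (y k)
  gint : CoeffInt v (G i₀)
  gunit : v (eval z (G i₀)) = 1

variable {i₀ : Fin (ν + 1)} {z : Fin (ν + 1) → K}
  {G : Fin (ν + 1) → MvPolynomial (Fin (ν + 1)) K} {y : ℕ → Fin (ν + 1) → K} {ρ : ℝ}

theorem Disc.ρ_nonneg (h : Disc v i₀ z G y ρ) : 0 ≤ ρ := (v.nonneg _).trans (h.close 0 i₀)

theorem Disc.unit (h : Disc v i₀ z G y ρ) {κ : MvPolynomial (Fin (ν + 1)) K}
    (hκ : CoeffInt v κ) (hz : v (eval z κ) = 1) (k : ℕ) : v (eval (y k) κ) = 1 := by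
  have h1 := v_eval_sub_le h.na hκ h.ρ_nonneg (h.le k) h.zle (h.close k)
  have h2 := v_eval_le h.na hκ (h.le k)
  refine le_antisymm h2 ?_
  by_contra h3
  rw [not_le] at h3
  have h4 : v (eval z κ) < 1 := by
    have e : eval z κ = eval (y k) κ - (eval (y k) κ - eval z κ) := by ring
    rw [e]
    refine lt_of_le_of_lt ?_ (max_lt h3 (lt_of_le_of_lt h1 h.hρ))
    rw [sub_eq_add_neg]
    refine (h.na _ _).trans ?_
    rw [AbsoluteValue.map_neg]
  rw [hz] at h4
  exact lt_irrefl _ h4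

theorem Disc.gne (h : Disc v i₀ z G y ρ) (k : ℕ) : eval (y k) (G i₀) ≠ 0 := by
  intro h1
  have h2 := h.unit h.gint h.gunit k
  rw [h1, map_zero] at h2
  exact zero_ne_one h2

theorem Disc.small (h : Disc v i₀ z G y ρ) {p : MvPolynomial (Fin (ν + 1)) K}
    (hp : CoeffInt v p) (hz : eval z p = 0) (k : ℕ) : v (eval (y k) p) ≤ ρ := by
  have h1 := v_eval_sub_le h.na hp h.ρ_nonneg (h.le k) h.zle (h.close k)
  rwa [hz, sub_zero] at h1

theorem Disc.trans_eq (h : Disc v i₀ z G y ρ) {P κ R : MvPolynomial (Fin (ν + 1)) K}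
    (hT : Trans i₀ z G P κ R) (hκ : CoeffInt v κ) (hR : CoeffInt v R)
    (hκ1 : v (eval z κ) = 1) (hR1 : v (eval z R) = 1) (k : ℕ) :
    v (eval (y k) P) = v (eval (y 0) P) := by
  induction k with
  | zero => rfl
  | succ k ih =>
    rw [← ih]
    have h1 := congrArg v (hT.rel (y k) (h.one k) (h.gne k))
    rw [map_mul, map_mul, h.unit hκ hκ1, h.unit hR hR1, one_mul, one_mul, ← h.next] at h1
    exact h1

/-- The slow functions become small. -/
theorem Disc.slow (h : Disc v i₀ z G y ρ) {P κ₁ R : MvPolynomial (Fin (ν + 1)) K}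
    (hT : Trans i₀ z G P κ₁ R) (hκ₁ : CoeffInt v κ₁) (hR : CoeffInt v R)
    (hκ₁1 : v (eval z κ₁) = 1) (hR1 : v (eval z R) = 1)
    {U : Fin (ν + 1) → MvPolynomial (Fin (ν + 1)) K} {M : ℕ}
    {κ : MvPolynomial (Fin (ν + 1)) K}
    {a : Fin (ν + 1) → Fin (ν + 1) → MvPolynomial (Fin (ν + 1)) K}
    {b : Fin (ν + 1) → MvPolynomial (Fin (ν + 1)) K} (hS : SlowD i₀ z G P U M κ a b)
    (hκ : CoeffInt v κ) (hκ1 : v (eval z κ) = 1) (ha : ∀ i j, CoeffInt v (a i j))
    (hb : ∀ i, CoeffInt v (b i)) (hU : ∀ i, CoeffInt v (U i)) (k : ℕ) (i : Fin (ν + 1)) :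
    v (eval (y k) (U i)) ≤ max (ρ ^ k) (v (eval (y 0) P) ^ M) := by
  have hρ := h.ρ_nonneg
  induction k generalizing i with
  | zero =>
    rw [pow_zero]
    exact (v_eval_le h.na (hU i) (h.le 0)).trans (le_max_left _ _)
  | succ k ih =>
    have h1 := congrArg v (hS.rel i (y k) (h.one k) (h.gne k))
    rw [map_mul, h.unit hκ hκ1, one_mul, ← h.next] at h1
    rw [h1]
    refine (h.na _ _).trans (max_le ?_ ?_)
    · have h3 : 0 ≤ max (ρ ^ (k + 1)) (v (eval (y 0) P) ^ M) :=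
        (pow_nonneg hρ _).trans (le_max_left _ _)
      refine v_sum_le h.na _ _ h3 fun j _ => ?_
      rw [map_mul]
      refine (mul_le_mul (h.small (ha i j) (hS.a_zero i j) k) (ih j) (v.nonneg _) hρ).trans ?_
      rw [mul_max_of_nonneg _ _ hρ]
      refine max_le_max ?_ ?_
      · rw [pow_succ, mul_comm]
      · exact mul_le_of_le_one_left (pow_nonneg (v.nonneg _) _) h.hρ.le
    · rw [map_mul, map_pow, h.trans_eq hT hκ₁ hR hκ₁1 hR1]
      refine le_trans ?_ (le_max_right _ _)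
      exact mul_le_of_le_one_left (pow_nonneg (v.nonneg _) _) (v_eval_le h.na (hb i) (h.le k))

/-- **The disc.** If a form `g` vanishes at arbitrarily late points of the orbit, then it is very
small at all late points; this contradicts the inequality of Lojasiewicz type. -/
theorem Disc.contra (h : Disc v i₀ z G y ρ) {P κ₁ R : MvPolynomial (Fin (ν + 1)) K}
    (hT : Trans i₀ z G P κ₁ R) (hPi : CoeffInt v P) (hκ₁ : CoeffInt v κ₁) (hR : CoeffInt v R)
    (hκ₁1 : v (eval z κ₁) = 1) (hR1 : v (eval z R) = 1)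
    {U : Fin (ν + 1) → MvPolynomial (Fin (ν + 1)) K} {N : ℕ}
    {κ : MvPolynomial (Fin (ν + 1)) K}
    {a : Fin (ν + 1) → Fin (ν + 1) → MvPolynomial (Fin (ν + 1)) K}
    {b : Fin (ν + 1) → MvPolynomial (Fin (ν + 1)) K} (hS : SlowD i₀ z G P U (N + 1) κ a b)
    (hκ : CoeffInt v κ) (hκ1 : v (eval z κ) = 1) (ha : ∀ i j, CoeffInt v (a i j))
    (hb : ∀ i, CoeffInt v (b i)) (hU : ∀ i, CoeffInt v (U i))
    {g κ₂ γ : MvPolynomial (Fin (ν + 1)) K} {c : Fin (ν + 1) → MvPolynomial (Fin (ν + 1)) K}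
    {j e : ℕ} (hg : g.IsHomogeneous e) (hκ₂ : CoeffInt v κ₂) (hκ₂1 : v (eval z κ₂) = 1)
    (hγ : CoeffInt v γ) (hc : ∀ i, CoeffInt v (c i))
    (hex : ∀ y : Fin (ν + 1) → K, y i₀ = 1 →
        eval y κ₂ * eval y g = ∑ i, eval y (c i) * eval y (U i) + eval y γ * eval y P ^ j)
    (hj : j = N + 1 ∨ j < N + 1 ∧ v (eval z γ) = 1)
    {κ₃ β : MvPolynomial (Fin (ν + 1)) K} (hκ₃ : CoeffInt v κ₃) (hκ₃1 : v (eval z κ₃) = 1)
    (hβ : CoeffInt v β) (hP0 : eval (y 0) P ≠ 0)
    (hfr : ∀ k₀ : ℕ, ∃ k ≥ k₀, eval (y k) g = 0 ∧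
      eval (y k) κ₃ * eval (y k) P ^ N = eval (y k) β * eval (y k) (aeval G g)) : False := by
  set r : ℝ := v (eval (y 0) P) with hr
  have hr0 : 0 < r := v.pos hP0
  have hr1 : r < 1 := lt_of_le_of_lt (h.small hPi hT.P_zero 0) h.hρ
  obtain ⟨k₀, hk₀⟩ : ∃ k₀, ρ ^ k₀ < r ^ (N + 1) := exists_pow_lt_of_lt_one (pow_pos hr0 _) h.hρ
  have hPk : ∀ k, v (eval (y k) P) = r := fun k => h.trans_eq hT hκ₁ hR hκ₁1 hR1 k
  have hUk : ∀ k ≥ k₀, ∀ i, v (eval (y k) (U i)) ≤ r ^ (N + 1) := by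
    intro k hk i
    refine (h.slow hT hκ₁ hR hκ₁1 hR1 hS hκ hκ1 ha hb hU k i).trans (max_le ?_ le_rfl)
    exact (pow_le_pow_of_le_one h.ρ_nonneg h.hρ.le hk).trans hk₀.le
  have hsum : ∀ k ≥ k₀, v (∑ i, eval (y k) (c i) * eval (y k) (U i)) ≤ r ^ (N + 1) := by
    intro k hk
    refine v_sum_le h.na _ _ (pow_nonneg hr0.le _) fun i _ => ?_
    rw [map_mul]
    refine (mul_le_mul (v_eval_le h.na (hc i) (h.le k)) (hUk k hk i) (v.nonneg _)
      zero_le_one).trans ?_
    rw [one_mul]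
  have hgv : ∀ k, v (eval (y k) g) =
      v (∑ i, eval (y k) (c i) * eval (y k) (U i) + eval (y k) γ * eval (y k) P ^ j) := by
    intro k
    rw [← hex (y k) (h.one k), map_mul, h.unit hκ₂ hκ₂1, one_mul]
  obtain ⟨k, hk, hgk, hrel⟩ := hfr k₀
  -- the expansion has no term of small order
  have hj' : j = N + 1 := by
    rcases hj with hj | ⟨hj, hγ1⟩
    · exact hj
    · exfalso
      have h1 := hex (y k) (h.one k)
      rw [hgk, mul_zero] at h1
      have h2 : v (eval (y k) γ * eval (y k) P ^ j) ≤ r ^ (N + 1) := by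
        have e : eval (y k) γ * eval (y k) P ^ j =
            -∑ i, eval (y k) (c i) * eval (y k) (U i) := by
          linear_combination -h1
        rw [e, AbsoluteValue.map_neg]
        exact hsum k hk
      rw [map_mul, map_pow, h.unit hγ hγ1, hPk, one_mul] at h2
      have h3 : r ^ (N + 1) < r ^ j := pow_lt_pow_right_of_lt_one₀ hr0 hr1 hj
      linarith
  have hgs : ∀ k ≥ k₀, v (eval (y k) g) ≤ r ^ (N + 1) := by
    intro k hk
    rw [hgv k, hj']
    refine (h.na _ _).trans (max_le (hsum k hk) ?_)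
    rw [map_mul, map_pow, hPk]
    exact mul_le_of_le_one_left (pow_nonneg hr0.le _) (v_eval_le h.na hγ (h.le k))
  -- the value of `g ∘ G`
  have hf : v (eval (y k) (aeval G g)) = v (eval (y (k + 1)) g) := by
    have h1 : eval (y k) (aeval G g) = eval (fun i => eval (y k) (G i)) g := by
      have h2 := comp_aeval_apply G (aeval (y k)) g
      simp only [aeval_eq_eval] at h2
      exact h2
    have h2 : (fun i => eval (y k) (G i)) = fun i => eval (y k) (G i₀) * y (k + 1) i := by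
      funext i
      rw [h.next k]
      unfold gam
      rw [mul_div_cancel₀ _ (h.gne k)]
    have h3 : ∀ w : K, eval (fun i => w * y (k + 1) i) g = w ^ e * eval (y (k + 1)) g := by
      intro w
      rw [eval_eq, eval_eq, Finset.mul_sum]
      refine Finset.sum_congr rfl fun m hm => ?_
      have hd : ∑ i ∈ m.support, m i = e := by
        have := hg (mem_support_iff.1 hm)
        rw [Finsupp.weight_apply] at this
        simpa [Finsupp.sum] using this
      rw [← hd, ← Finset.prod_pow_eq_pow_sum]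
      simp only [mul_pow, Finset.prod_mul_distrib]
      ring
    rw [h1, h2, h3, map_mul, map_pow, h.unit h.gint h.gunit, one_pow, one_mul]
  have h4 := congrArg v hrel
  rw [map_mul, map_mul, map_pow, h.unit hκ₃ hκ₃1, hPk, one_mul, hf] at h4
  have h5 : r ^ N ≤ r ^ (N + 1) := by
    rw [h4]
    refine (mul_le_mul (v_eval_le h.na hβ (h.le k)) (hgs (k + 1) (by omega)) (v.nonneg _)
      zero_le_one).trans ?_
    rw [one_mul]
  have h6 : r ^ (N + 1) < r ^ N := pow_lt_pow_right_of_lt_one₀ hr0 hr1 (Nat.lt_succ_self N)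
  linarith

end Pool.Agent.Helper41.R1
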