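import Pool.Agent.Helper41.R1.Loj
import Pool.Agent.Helper41.R1.Local
import Pool.Agent.Helper41.R1.Hit

/-!
# Good places for the disc of a periodic point
-/

set_option autoImplicit false

namespace Pool.Agent.Helper41.R1

open MvPolynomial Height Height.AdmissibleAbsValues Filter Topology
open Pool.Agent.Helper36 (step iter)
open Pool.Agent.Helper29.TG
open Pool.Agent.Helper72.TH

variable {ν : ℕ} {K : Type} [Field K]

open scoped WithZero in
theorem le_exp_of_lt_one {γ : ℤᵐ⁰} (h : γ < 1) : γ ≤ WithZero.exp (-1) := by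
  by_cases h0 : γ = 0
  · rw [h0]
    exact zero_le
  · rw [← WithZero.exp_log h0] at h ⊢
    rw [← WithZero.exp_zero, WithZero.exp_lt_exp] at h
    rw [WithZero.exp_le_exp]
    omega

open NumberField in
/-- The absolute values are discrete. -/
theorem exists_rho {K : Type} [Field K] [NumberField K] {v : AbsoluteValue K ℝ}
    (hv : v ∈ nonarchAbsVal (K := K)) : ∃ ρ : ℝ, ρ < 1 ∧ ∀ a : K, v a < 1 → v a ≤ ρ := by
  obtain ⟨P, rfl⟩ := hv
  have hval : ∀ x : K, NumberField.place (NumberField.FinitePlace.embedding P) x =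
      WithZeroMulInt.toNNReal (NumberField.HeightOneSpectrum.absNorm_ne_zero P)
        (P.valuation K x) := by
    intro x
    rw [NumberField.place_apply]
    exact NumberField.FinitePlace.norm_embedding' P x
  have hb := NumberField.HeightOneSpectrum.one_lt_absNorm_nnreal P
  refine ⟨WithZeroMulInt.toNNReal (NumberField.HeightOneSpectrum.absNorm_ne_zero P)
    (WithZero.exp (-1)), ?_, fun a ha => ?_⟩
  · rw [NNReal.coe_lt_one, WithZeroMulInt.toNNReal_lt_one_iff hb, ← WithZero.exp_zero,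
      WithZero.exp_lt_exp]
    norm_num
  · rw [hval] at ha ⊢
    rw [NNReal.coe_lt_one, WithZeroMulInt.toNNReal_lt_one_iff hb] at ha
    rw [NNReal.coe_le_coe]
    exact (WithZeroMulInt.toNNReal_strictMono hb).monotone (le_exp_of_lt_one ha)

/-- Finitely many polynomials and nonzero numbers at almost all places. -/
theorem exists_good [AdmissibleAbsValues K] (PS : Set (MvPolynomial (Fin (ν + 1)) K))
    (hPS : PS.Finite) (ZS : Set K) (hZS : ZS.Finite) (h0 : ∀ a ∈ ZS, a ≠ 0) :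
    ∃ B : Set (AbsoluteValue K ℝ), B.Finite ∧ ∀ v ∈ nonarchAbsVal (K := K), v ∉ B →
      (∀ Q ∈ PS, CoeffInt v Q) ∧ ∀ a ∈ ZS, v a = 1 := by
  have : Finite PS := hPS
  have : Finite ZS := hZS
  obtain ⟨B₁, hB₁, h₁⟩ := ChainM_all (K := K) (ι := PS)
    (P := fun Q v => CoeffInt v Q.1) fun Q => exists_vint Q.1
  obtain ⟨B₂, hB₂, h₂⟩ := ChainM_all (K := K) (ι := ZS)
    (P := fun a v => v a.1 = 1) fun a => exists_vunit (h0 a.1 a.2)
  refine ⟨B₁ ∪ B₂, hB₁.union hB₂, fun v hv hvB => ?_⟩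
  rw [Set.mem_union, not_or] at hvB
  exact ⟨fun Q hQ => h₁ v hv hvB.1 ⟨Q, hQ⟩, fun a ha => h₂ v hv hvB.2 ⟨a, ha⟩⟩

/-- At almost all places, the orbit does not enter the disc of `z` and return to the curve. -/
theorem exists_localB [AdmissibleAbsValues K] {𝒰 : Ultrafilter ℕ} {x : ℕ → Fin (ν + 1) → K}
    (hcf : OnCF 𝒰 x) {z : Fin (ν + 1) → K} {i₀ : Fin (ν + 1)} (hz : z i₀ = 1)
    {G : Fin (ν + 1) → MvPolynomial (Fin (ν + 1)) K} {D : ℕ} (hD : 1 ≤ D)
    (hG : ∀ i, (G i).IsHomogeneous D) {c : K} (hc : c ≠ 0) (hGz : ∀ i, eval z (G i) = c * z i)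
    {P κ₁ R : MvPolynomial (Fin (ν + 1)) K} {δ : ℕ} (hδ : 1 ≤ δ) (hP : P.IsHomogeneous δ)
    (hT : Trans i₀ z G P κ₁ R) {β : Fin (ν + 1) → K}
    (hβ : ∀ i k, eval z (pderiv k (G i)) - z i * eval z (pderiv k (G i₀)) =
      β i * eval z (pderiv k P))
    {g : MvPolynomial (Fin (ν + 1)) K} {e : ℕ} (he : 1 ≤ e) (hg : g.IsHomogeneous e)
    (hgx : ∀ᶠ n in (𝒰 : Filter ℕ), eval (x n) g = 0)
    (hfx : ∀ᶠ n in (𝒰 : Filter ℕ), eval (x n) (aeval G g) ≠ 0) :
    ∃ B : Set (AbsoluteValue K ℝ), B.Finite ∧ ∀ v ∈ nonarchAbsVal (K := K), v ∉ B →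
      ∀ (y : ℕ → Fin (ν + 1) → K) (ρ : ℝ), IsNonarchimedean v → ρ < 1 → (∀ k, y k i₀ = 1) →
        (∀ k i, v (y k i) ≤ 1) → (∀ k i, v (y k i - z i) ≤ ρ) →
        (∀ k, y (k + 1) = gam i₀ G (y k)) → eval (y 0) P ≠ 0 →
        (∀ A ∈ (𝒰 : Filter ℕ), ∀ k₀ : ℕ, ∃ k ≥ k₀, ∃ n ∈ A, x n i₀ ≠ 0 ∧ y k = nz i₀ (x n)) →
        False := by
  classical
  obtain ⟨κ₃, β₃, N, hκ₃, hlj⟩ := exists_loj hcf (z := z) (i₀ := i₀) hδ
    (show 1 ≤ D * e from Nat.mul_pos hD he) hP (hg.aeval G hG) hT.P_zero hfx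
  obtain ⟨U, hU, κ, a, b, hS⟩ := exists_slow hz hc hGz hT hβ N
  obtain ⟨κ₂, γ, cc, j, hκ₂, hex, hj⟩ := expand hU g (N + 1)
  obtain ⟨B, hB, hBg⟩ := exists_good (K := K)
    ({P, κ₁, R, κ, κ₂, γ, κ₃, β₃, G i₀} ∪ (Set.range U ∪ (Set.range b ∪ (Set.range cc ∪
      Set.range fun p : Fin (ν + 1) × Fin (ν + 1) => a p.1 p.2))) ∪
      Set.range fun i => (C (z i) : MvPolynomial (Fin (ν + 1)) K)) (by
      refine ((Set.toFinite _).union ((Set.finite_range _).union ((Set.finite_range _).union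
        ((Set.finite_range _).union (Set.finite_range _))))).union (Set.finite_range _))
    ({eval z κ₁, eval z R, eval z κ, eval z κ₂, eval z κ₃, eval z (G i₀)} ∪
      {w | w = eval z γ ∧ eval z γ ≠ 0}) (by
      refine (Set.toFinite _).union ((Set.finite_singleton (eval z γ)).subset ?_)
      rintro w ⟨hw, -⟩
      exact hw) (by
      rintro w (hw | ⟨hw, hw'⟩)
      · simp only [Set.mem_insert_iff, Set.mem_singleton_iff] at hw
        rcases hw with rfl | rfl | rfl | rfl | rfl | rfl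
        · exact hT.κ_ne
        · exact hT.R_ne
        · exact hS.κ_ne
        · exact hκ₂
        · exact hκ₃
        · rw [hGz, hz, mul_one]
          exact hc
      · rw [hw]
        exact hw')
  refine ⟨B, hB, fun v hv hvB y ρ hna hρ hone hle hclose hnext hP0 hfr => ?_⟩
  obtain ⟨hi, hu⟩ := hBg v hv hvB
  have hi' : ∀ Q ∈ ({P, κ₁, R, κ, κ₂, γ, κ₃, β₃, G i₀} : Set (MvPolynomial (Fin (ν + 1)) K)),
      CoeffInt v Q := fun Q hQ => hi Q (Or.inl (Or.inl hQ))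
  have hu' : ∀ w ∈ ({eval z κ₁, eval z R, eval z κ, eval z κ₂, eval z κ₃, eval z (G i₀)} :
      Set K), v w = 1 := fun w hw => hu w (Or.inl hw)
  have hzle : ∀ i, v (z i) ≤ 1 := by
    intro i
    have h1 := hi (C (z i)) (Or.inr ⟨i, rfl⟩) 0
    rwa [coeff_C, if_pos rfl] at h1
  have hdisc : Disc v i₀ z G y ρ :=
    { na := hna, hρ := hρ, zle := hzle, one := hone, le := hle, close := hclose, next := hnext
      gint := hi' _ (by simp), gunit := hu' _ (by simp) }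
  refine hdisc.contra hT (hi' _ (by simp)) (hi' _ (by simp)) (hi' _ (by simp)) (hu' _ (by simp))
    (hu' _ (by simp)) hS (hi' _ (by simp)) (hu' _ (by simp))
    (fun i j => hi _ (Or.inl (Or.inr (Or.inr (Or.inr (Or.inr ⟨(i, j), rfl⟩))))))
    (fun i => hi _ (Or.inl (Or.inr (Or.inr (Or.inl ⟨i, rfl⟩)))))
    (fun i => hi _ (Or.inl (Or.inr (Or.inl ⟨i, rfl⟩)))) hg (hi' κ₂ (by simp))
    (hu' _ (by simp)) (hi' γ (by simp))
    (fun i => hi _ (Or.inl (Or.inr (Or.inr (Or.inr (Or.inl ⟨i, rfl⟩)))))) hex ?_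
    (hi' κ₃ (by simp)) (hu' _ (by simp)) (hi' β₃ (by simp)) hP0 ?_
  · rcases hj with hj | ⟨hj, hγ⟩
    · exact Or.inl hj
    · exact Or.inr ⟨hj, hu _ (Or.inr ⟨rfl, hγ⟩)⟩
  · intro k₀
    obtain ⟨k, hk, n, ⟨hn1, hn2⟩, hn0, hyk⟩ := hfr _ (hgx.and hlj) k₀
    refine ⟨k, hk, ?_, ?_⟩
    · rw [hyk, eval_nz (x n) hg, hn1, mul_zero]
    · rw [hyk]
      exact hn2 hn0

end Pool.Agent.Helper41.R1
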