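import Pool.Agent.Helper41.R1.Hit

/-!
# An orbit meets the hypersurface `R = 0` at most `s + 1` times
-/

set_option autoImplicit false

namespace Pool.Agent.Helper41.R1

open MvPolynomial
open Pool.Agent.Helper36 (step iter)
open Pool.Agent.Helper29.TG
open Pool.Agent.Helper72.TH
open Pool.Agent.Helper30.TKN (jf)

variable {ν : ℕ}

theorem par_of_cr {L : Type} [Field L] {x y : Fin (ν + 1) → L} (hx : x ≠ 0) (hy : y ≠ 0)
    (h : cr x y = 0) : ∃ u : L, u ≠ 0 ∧ x = fun i => u * y i := by
  obtain ⟨p, hp⟩ := Function.ne_iff.1 hy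
  have hp : y p ≠ 0 := hp
  have h1 : x = fun i => (x p / y p) * y i := by
    funext i
    have h2 := congrFun h (i, p)
    simp only [cr, Pi.zero_apply] at h2
    field_simp
    linear_combination h2
  refine ⟨x p / y p, ?_, h1⟩
  intro h0
  apply hx
  rw [h1, h0]
  funext i
  rw [zero_mul]
  rfl

theorem crit_count {K L : Type} [Field K] [Field L] [Algebra K L]
    {F : Fin (ν + 1) → MvPolynomial (Fin (ν + 1)) K} {d : ℕ} (hF : ∀ i, (F i).IsHomogeneous d)
    (hnz : ∀ x : Fin (ν + 1) → L, (∀ i, aeval x (F i) = 0) → x = 0)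
    {P R : MvPolynomial (Fin (ν + 1)) K} {r : ℕ} (hR : R.IsHomogeneous r)
    (hinv : aeval F P = P * R)
    {s : ℕ} {c : Fin s → Fin (ν + 1) → K} {σ : Fin s → Fin s} {t : Fin s → K}
    (hc : CritD L F P R c σ t) (T : Finset ℕ) (hT : T.card = s + 2) (x : Fin (ν + 1) → L)
    (hx : ∀ j ∈ T, aeval (iter F x j) R = 0) : x = 0 := by
  classical
  by_contra hx0
  have hne : ∀ l, iter F x l ≠ 0 := by
    intro l
    induction l with
    | zero => exact hx0
    | succ l ih =>
      rw [Pool.Agent.Helper36.iter_succ]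
      intro h
      exact ih (hnz _ fun i => congrFun h i)
  have hstep : ∀ l, aeval (iter F x (l + 1)) P =
      aeval (iter F x l) P * aeval (iter F x l) R := by
    intro l
    rw [Pool.Agent.Helper36.iter_succ]
    have h2 := comp_aeval_apply F (aeval (iter F x l)) P
    rw [hinv, map_mul] at h2
    exact h2.symm
  have hTne : T.Nonempty := Finset.card_pos.1 (by omega)
  set j₀ := T.min' hTne with hj₀
  have hj₀T : j₀ ∈ T := T.min'_mem hTne
  have hP : ∀ l, j₀ < l → aeval (iter F x l) P = 0 := by
    intro l hl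
    induction l, hl using Nat.le_induction with
    | base =>
      rw [Nat.succ_eq_add_one, hstep, hx j₀ hj₀T, mul_zero]
    | succ l _ ih => rw [hstep, ih, zero_mul]
  have hcov : ∀ j ∈ T.erase j₀, ∃ i, cr (iter F x j) (fun l => algebraMap K L (c i l)) = 0 := by
    intro j hj
    have h1 : j₀ < j := lt_of_le_of_ne (T.min'_le j (Finset.mem_of_mem_erase hj))
      (Finset.ne_of_mem_erase hj).symm
    refine hc.cover _ (hP j h1) ?_
    rw [map_mul, hx j (Finset.mem_of_mem_erase hj), mul_zero]
  haveI : Nonempty (Fin s) := by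
    have h1 : (T.erase j₀).Nonempty := by
      rw [← Finset.card_pos, Finset.card_erase_of_mem hj₀T]
      omega
    obtain ⟨j, hj⟩ := h1
    obtain ⟨i, -⟩ := hcov j hj
    exact ⟨i⟩
  choose! τ hτ using hcov
  have hcl : ∀ i, (fun l => algebraMap K L (c i l)) ≠ 0 := by
    intro i h
    apply hc.ne i
    funext l
    exact (map_eq_zero_iff _ (algebraMap K L).injective).1 (congrFun h l)
  obtain ⟨j, hj, l, hl, hjl, hτe⟩ : ∃ j ∈ T.erase j₀, ∃ l ∈ T.erase j₀, j < l ∧ τ j = τ l := by
    obtain ⟨j, hj, l, hl, hne', he⟩ := Finset.exists_ne_map_eq_of_card_lt_of_maps_to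
      (s := T.erase j₀) (t := (Finset.univ : Finset (Fin s))) (f := τ)
      (by rw [Finset.card_erase_of_mem hj₀T, Finset.card_univ, Fintype.card_fin]; omega)
      (fun _ _ => Finset.mem_univ _)
    rcases lt_or_gt_of_ne hne' with h | h
    · exact ⟨j, hj, l, hl, h, he⟩
    · exact ⟨l, hl, j, hj, h, he.symm⟩
  obtain ⟨u, hu, hxj⟩ := par_of_cr (hne j) (hcl _) (hτ j hj)
  obtain ⟨w, hw, hxl⟩ := par_of_cr (hne l) (hcl _) (hτ l hl)
  obtain ⟨a, ha, hiter⟩ := next_iter hF hc (τ j) (l - j)
  -- the orbit of the multiple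
  have h1 : iter F x l = fun i => (u ^ d ^ (l - j) * algebraMap K L a) *
      algebraMap K L (c (σ^[l - j] (τ j)) i) := by
    have h2 : iter F x l = iter F (iter F x j) (l - j) := by
      rw [← Pool.Agent.Helper36.iter_add, Nat.sub_add_cancel hjl.le]
    have h3 : ∀ n, iter F (fun i => u * algebraMap K L (c (τ j) i)) n =
        fun i => u ^ d ^ n * algebraMap K L (iter F (c (τ j)) n i) := by
      intro n
      induction n with
      | zero =>
        funext i
        simp [Pool.Agent.Helper36.iter_zero]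
      | succ n ih =>
        rw [Pool.Agent.Helper36.iter_succ, ih]
        funext i
        have h4 : step F (fun i => u ^ d ^ n * algebraMap K L (iter F (c (τ j)) n i)) i =
            (u ^ d ^ n) ^ d * aeval (fun i => algebraMap K L (iter F (c (τ j)) n i)) (F i) :=
          Pool.Agent.Helper36.aeval_smul_homogeneous (hF i) _ _
        rw [h4, ← pow_mul, ← pow_succ, Pool.Agent.Helper36.iter_succ]
        congr 1
        exact aeval_algebraMap_apply L (iter F (c (τ j)) n) (F i)
    rw [h2, hxj, h3, hiter]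
    funext i
    rw [map_mul]
    ring
  have h5 : cr (c (τ j)) (c (σ^[l - j] (τ j))) = 0 := by
    funext q
    have e1 := congrFun h1 q.1
    have e2 := congrFun h1 q.2
    have e3 := congrFun hxl q.1
    have e4 := congrFun hxl q.2
    rw [← hτe] at e3 e4
    have hb : u ^ d ^ (l - j) * algebraMap K L a ≠ 0 :=
      mul_ne_zero (pow_ne_zero _ hu) (by
        rw [Ne, map_eq_zero_iff _ (algebraMap K L).injective]
        exact ha)
    apply (algebraMap K L).injective
    simp only [cr, Pi.zero_apply, map_sub, map_mul, map_zero]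
    have e5 := e1.symm.trans e3
    have e6 := e2.symm.trans e4
    have h6 : (w * (u ^ d ^ (l - j) * algebraMap K L a)) *
        (algebraMap K L (c (τ j) q.1) * algebraMap K L (c (σ^[l - j] (τ j)) q.2) -
        algebraMap K L (c (τ j) q.2) * algebraMap K L (c (σ^[l - j] (τ j)) q.1)) = 0 := by
      linear_combination (w * algebraMap K L (c (τ j) q.1)) * e6 -
        (w * algebraMap K L (c (τ j) q.2)) * e5
    exact (mul_eq_zero.1 h6).resolve_left (mul_ne_zero hw hb)
  have h7 : σ^[l - j] (τ j) = τ j := by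
    by_contra h8
    exact hc.dist _ _ (Ne.symm h8) h5
  refine hc.Rne (τ j) ⟨l - j, by omega, h7⟩ ?_
  have h9 := hx j (Finset.mem_of_mem_erase hj)
  rw [hxj, Pool.Agent.Helper36.aeval_smul_homogeneous hR] at h9
  have h10 := (mul_eq_zero.1 h9).resolve_left (pow_ne_zero _ hu)
  have h11 := aeval_algebraMap_apply L (c (τ j)) R
  rw [aeval_eq_eval] at h11
  have h12 : aeval (fun l => algebraMap K L (c (τ j) l)) R = algebraMap K L (eval (c (τ j)) R) :=
    h11
  rw [h12, map_eq_zero_iff _ (algebraMap K L).injective] at h10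
  exact h10

end Pool.Agent.Helper41.R1
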