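import Pool.Agent.Helper41.R1.Hit
import Pool.Agent.Helper38.TQ.Defs

/-!
# Finite invariant sets of points
-/

set_option autoImplicit false

namespace Pool.Agent.Helper41.R1

open MvPolynomial
open Pool.Agent.Helper36 (step iter)
open Pool.Agent.Helper29.TG
open Pool.Agent.Helper38.TQ (PEq)
open Pool.Agent.Helper30.TKN (jf)

variable {ν : ℕ}

section aux

variable {K : Type} [Field K]

theorem Fin_symm {x y : Fin (ν + 1) → K} (h : PEq x y) : PEq y x := by
  obtain ⟨c, hc, rfl⟩ := h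
  exact ⟨c⁻¹, inv_ne_zero hc, by rw [smul_smul, inv_mul_cancel₀ hc, one_smul]⟩

theorem Fin_trans {x y z : Fin (ν + 1) → K} (h : PEq x y) (h' : PEq y z) : PEq x z := by
  obtain ⟨c, hc, rfl⟩ := h
  obtain ⟨e, he, rfl⟩ := h'
  exact ⟨e * c, mul_ne_zero he hc, by rw [smul_smul]⟩

theorem Fin_refl (x : Fin (ν + 1) → K) : PEq x x := ⟨1, one_ne_zero, (one_smul K x).symm⟩

theorem Fin_cr {x y : Fin (ν + 1) → K} (h : PEq x y) : cr x y = 0 := by
  obtain ⟨c, -, rfl⟩ := h
  funext q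
  simp only [cr, Pi.smul_apply, smul_eq_mul, Pi.zero_apply]
  ring

theorem Fin_of_cr {x y : Fin (ν + 1) → K} (hx : x ≠ 0) (hy : y ≠ 0) (h : cr x y = 0) :
    PEq x y := by
  obtain ⟨i, hi⟩ := Function.ne_iff.1 hx
  have hi' : x i ≠ 0 := hi
  have h1 : ∀ j, y j = y i / x i * x j := by
    intro j
    have h2 : x i * y j - x j * y i = 0 := congrFun h (i, j)
    field_simp
    linear_combination h2
  refine ⟨y i / x i, fun h0 => hy ?_, funext fun j => h1 j⟩
  funext j
  rw [h1 j, h0, zero_mul]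
  rfl

theorem Fin_step {F : Fin (ν + 1) → MvPolynomial (Fin (ν + 1)) K} {d : ℕ}
    (hF : ∀ i, (F i).IsHomogeneous d) {x y : Fin (ν + 1) → K} (h : PEq x y) :
    PEq (step F x) (step F y) := by
  obtain ⟨c, hc, rfl⟩ := h
  exact ⟨c ^ d, pow_ne_zero _ hc, funext fun i =>
    Pool.Agent.Helper36.aeval_smul_homogeneous (hF i) c x⟩

end aux

/-- A finite set of points on the invariant hypersurface, invariant up to multiples, gives the
data `CritD`. -/
theorem exists_critD {K L : Type} [Field K] [Field L] [Algebra K L]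
    {F : Fin (ν + 1) → MvPolynomial (Fin (ν + 1)) K} {d : ℕ} (hF : ∀ i, (F i).IsHomogeneous d)
    {P R : MvPolynomial (Fin (ν + 1)) K} {r : ℕ} (hR : R.IsHomogeneous r)
    {W : Set (Fin (ν + 1) → K)} (hW : W.Finite) (h0 : ∀ w ∈ W, w ≠ 0)
    (hnext : ∀ w ∈ W, ∃ w' ∈ W, PEq (step F w) w') (hP : ∀ w ∈ W, eval w P = 0)
    (hRW : ∀ w ∈ W, (∃ p, 1 ≤ p ∧ PEq (iter F w p) w) → eval w R ≠ 0)
    (hcover : ∀ x : Fin (ν + 1) → L, x ≠ 0 → aeval x P = 0 → aeval x (jf F * R) = 0 →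
      ∃ w ∈ W, PEq x (fun l => algebraMap K L (w l))) (hWne : W.Nonempty) :
    ∃ (s : ℕ) (c : Fin s → Fin (ν + 1) → K) (σ : Fin s → Fin s) (t : Fin s → K),
      CritD L F P R c σ t ∧ ∀ i, c i ∈ W := by
  classical
  have hWf : Finite W := hW
  let S : Setoid W :=
    { r := fun a b => PEq (a : Fin (ν + 1) → K) b
      iseqv := ⟨fun a => Fin_refl _, fun h => Fin_symm h, fun h h' => Fin_trans h h'⟩ }
  have hQf : Finite (Quotient S) := Quotient.finite S
  obtain ⟨s, ⟨e⟩⟩ := Finite.exists_equiv_fin (Quotient S)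
  let c : Fin s → Fin (ν + 1) → K := fun i => ((e.symm i).out : W)
  have hcW : ∀ i, c i ∈ W := fun i => ((e.symm i).out).2
  have hc : ∀ w : W, PEq (w : Fin (ν + 1) → K) (c (e (Quotient.mk S w))) := by
    intro w
    have h1 : (Quotient.mk S ((e.symm (e (Quotient.mk S w))).out)) = Quotient.mk S w := by
      rw [Quotient.out_eq, Equiv.symm_apply_apply]
    exact Fin_symm (Quotient.exact h1)
  choose f hf hfP using fun i => hnext (c i) (hcW i)
  let σ : Fin s → Fin s := fun i => e (Quotient.mk S ⟨f i, hf i⟩)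
  have hσ : ∀ i, PEq (step F (c i)) (c (σ i)) := fun i => Fin_trans (hfP i) (hc ⟨f i, hf i⟩)
  have hσs := fun i => Fin_symm (hσ i)
  choose t ht hts using hσs
  have hit : ∀ i n, PEq (iter F (c i) n) (c (σ^[n] i)) := by
    intro i n
    induction n with
    | zero => exact Fin_refl _
    | succ n ih =>
      rw [Pool.Agent.Helper36.iter_succ, Function.iterate_succ_apply']
      exact Fin_trans (Fin_step hF ih) (hσ _)
  refine ⟨s, c, σ, t, ⟨fun i => h0 _ (hcW i), ht, fun i => hts i, fun i j hij hcr => hij ?_,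
    fun i => hP _ (hcW i), fun i hi => hRW _ (hcW i) ?_, fun x hxP hxJ => ?_⟩, hcW⟩
  · have h1 : PEq (c i) (c j) := Fin_of_cr (h0 _ (hcW i)) (h0 _ (hcW j)) hcr
    have h2 : Quotient.mk S ((e.symm i).out) = Quotient.mk S ((e.symm j).out) :=
      Quotient.sound h1
    rw [Quotient.out_eq, Quotient.out_eq] at h2
    exact e.symm.injective h2
  · obtain ⟨p, hp, h1⟩ := hi
    refine ⟨p, hp, ?_⟩
    have h2 := hit i p
    rwa [h1] at h2
  · by_cases hx : x = 0
    · obtain ⟨w, hw⟩ := hWne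
      refine ⟨e (Quotient.mk S ⟨w, hw⟩), ?_⟩
      funext q
      simp [cr, hx]
    · obtain ⟨w, hw, h1⟩ := hcover x hx hxP hxJ
      refine ⟨e (Quotient.mk S ⟨w, hw⟩), Fin_cr (Fin_trans h1 ?_)⟩
      obtain ⟨u, hu, h2⟩ := hc ⟨w, hw⟩
      refine ⟨algebraMap K L u, (map_ne_zero _).2 hu, ?_⟩
      funext l
      rw [h2]
      simp

end Pool.Agent.Helper41.R1
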