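import Pool.Agent.Helper41.R1.Plane
import Pool.Agent.Helper30.TP.Const
import Pool.Agent.Helper30.TP.Shift
import Pool.Agent.Helper72.TH.Final

/-!
# The rank one extension for the plane over the field of algebraic numbers
-/

set_option autoImplicit false

namespace Pool.Agent.Helper41.R1

open MvPolynomial Filter Topology
open Pool.Agent.Helper36 (step iter)
open Pool.Agent.Helper38.TQ (IsEndo PEq CurveSet)
open Pool.Agent.Helper29.TG
open Pool.Agent.Helper72.TH
open Pool.Agent.Helper30.TKN (jf)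
open Pool.Agent.Helper72.PN (MainN_sets MainN_endo MainN_ne MainN_preper MainN_hom MainN_finite)

/-- A quotient of polynomials with coefficients in `K` has coefficients in `K`. -/
theorem exists_quotient {K : Type} [Field K] [Algebra K ℂ] {P Q : MvPolynomial (Fin 3) K}
    (hP : P ≠ 0) {R : MvPolynomial (Fin 3) ℂ}
    (h : map (algebraMap K ℂ) Q = map (algebraMap K ℂ) P * R) :
    ∃ R' : MvPolynomial (Fin 3) K, map (algebraMap K ℂ) R' = R ∧ Q = P * R' := by
  classical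
  obtain ⟨ρ, hρ⟩ := LinearMap.exists_leftInverse_of_injective (Algebra.linearMap K ℂ)
    (LinearMap.ker_eq_bot.2 (algebraMap K ℂ).injective)
  have hρ1 : ∀ a : K, ρ (algebraMap K ℂ a) = a := fun a => by
    have := congrArg (fun φ => φ a) hρ
    simpa using this
  have hρm : ∀ (a : K) (z : ℂ), ρ (algebraMap K ℂ a * z) = a * ρ z := fun a z => by
    rw [← Algebra.smul_def, map_smul, smul_eq_mul]
  let R' : MvPolynomial (Fin 3) K := ∑ m ∈ R.support, monomial m (ρ (R.coeff m))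
  have hR' : ∀ m, R'.coeff m = ρ (R.coeff m) := by
    intro m
    simp only [R', coeff_sum, coeff_monomial]
    rw [Finset.sum_ite_eq']
    split_ifs with hm
    · rfl
    · rw [notMem_support_iff.1 hm, map_zero]
  have hQ : Q = P * R' := by
    ext m
    rw [coeff_mul]
    have h1 := congrArg (fun p => ρ (coeff m p)) h
    simp only [coeff_map, coeff_mul, hρ1, map_sum, hρm] at h1
    rw [h1]
    exact Finset.sum_congr rfl fun q _ => by rw [hR']
  refine ⟨R', ?_, hQ⟩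
  have hP' : map (algebraMap K ℂ) P ≠ 0 := fun h0 =>
    hP (map_injective _ (algebraMap K ℂ).injective (h0.trans (map_zero _).symm))
  refine mul_left_cancel₀ hP' ?_
  rw [← h, hQ, map_mul]

/-- The common zeros of two forms with algebraic coefficients. -/
theorem alg_zeros {φ ψ : MvPolynomial (Fin 3) ℂ} {e t : ℕ} (hφ : φ.IsHomogeneous e)
    (hψ : ψ.IsHomogeneous t) (hφa : ∀ m, IsAlgebraic ℚ (φ.coeff m))
    (hψa : ∀ m, IsAlgebraic ℚ (ψ.coeff m)) (hirr : Irreducible φ) (hnd : ¬ φ ∣ ψ) :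
    ∃ W : Set (Fin 3 → ℂ), W.Finite ∧ (∀ w ∈ W, w ≠ 0 ∧ (∀ i, IsAlgebraic ℚ (w i)) ∧
      eval w φ = 0 ∧ eval w ψ = 0) ∧
      ∀ x : Fin 3 → ℂ, x ≠ 0 → eval x φ = 0 → eval x ψ = 0 → ∃ w ∈ W, PEq x w := by
  classical
  let k : IntermediateField ℚ ℂ := algebraicClosure ℚ ℂ
  have hac : IsAlgClosed k := (algebraicClosure.isAlgClosure ℚ ℂ).isAlgClosed
  obtain ⟨φ', hφ'⟩ := exists_liftF (ν := 2) k (p := φ) fun m => mem_algebraicClosure_iff.2 (hφa m)
  obtain ⟨ψ', hψ'⟩ := exists_liftF (ν := 2) k (p := ψ) fun m => mem_algebraicClosure_iff.2 (hψa m)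
  have hφh : φ'.IsHomogeneous e := by
    rw [← hφ'] at hφ
    exact hφ.of_map (algebraMap k ℂ).injective
  have hψh : ψ'.IsHomogeneous t := by
    rw [← hψ'] at hψ
    exact hψ.of_map (algebraMap k ℂ).injective
  have hirr' : Irreducible φ' := Pool.Agent.Helper30.TP.irreducible_of_map (K := ℂ) (by
    rw [hφ']
    exact hirr)
  have hnd' : ¬ φ' ∣ ψ' := fun h => hnd (by
    rw [← hφ', ← hψ']
    exact map_dvd _ h)
  have hconst : ∀ x : Fin 3 → ℂ, x ≠ 0 → eval x φ = 0 → eval x ψ = 0 →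
      ∃ w : Fin 3 → ℂ, PEq x w ∧ ∀ i, IsAlgebraic ℚ (w i) := by
    intro x hx h1 h2
    by_contra hcon
    apply hnd'
    refine Pool.Agent.Helper30.TP.dvd_of_common_zero hφh hψh hirr' x hx ?_ ?_ ?_
    · rintro ⟨z, c, hc, hz⟩
      apply hcon
      refine ⟨fun i => algebraMap k ℂ (z i), ⟨c⁻¹, inv_ne_zero hc, ?_⟩, fun i =>
        mem_algebraicClosure_iff.1 (z i).2⟩
      rw [hz]
      funext i
      simp only [Pi.smul_apply, smul_eq_mul]
      rw [inv_mul_cancel_left₀ hc]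
    · rw [aeval_def, ← eval_map, hφ']
      exact h1
    · rw [aeval_def, ← eval_map, hψ']
      exact h2
  -- classes of points
  let st : Setoid {z : Fin 3 → ℂ // z ≠ 0} :=
    ⟨fun z w => Pool.Agent.Helper30.TP.PEq z.1 w.1,
      ⟨fun z => Pool.Agent.Helper30.TP.PEq.refl _, fun h => h.symm, fun h h' => h.trans h'⟩⟩
  let y : Quotient st → Fin 3 → ℂ := fun q => q.out.1
  have hy0 : ∀ q, y q ≠ 0 := fun q => q.out.2
  have hfin := Pool.Agent.Helper30.TP.finite_common_zeros hφ hψ hirr hnd y hy0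
    (fun q q' hqq' h => hqq' (by
      rw [← Quotient.out_eq q, ← Quotient.out_eq q']
      exact Quotient.sound h))
  choose! w hw using hconst
  refine ⟨(fun q => w (y q)) '' {q | eval (y q) φ = 0 ∧ eval (y q) ψ = 0}, hfin.image _, ?_, ?_⟩
  · rintro _ ⟨q, ⟨h1, h2⟩, rfl⟩
    obtain ⟨⟨c, hc, h3⟩, h4⟩ := hw (y q) (hy0 q) h1 h2
    dsimp only
    refine ⟨?_, h4, ?_, ?_⟩
    · rw [h3]
      exact smul_ne_zero hc (hy0 q)
    · rw [h3, Pool.Agent.Helper38.TQ.eval_smul_hom (ν := 2) hφ, h1, mul_zero]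
    · rw [h3, Pool.Agent.Helper38.TQ.eval_smul_hom (ν := 2) hψ, h2, mul_zero]
  · intro x hx h1 h2
    have h3 : PEq x (y (Quotient.mk st ⟨x, hx⟩)) := by
      have h4 : Quotient.mk st (Quotient.mk st ⟨x, hx⟩).out = Quotient.mk st ⟨x, hx⟩ :=
        Quotient.out_eq _
      have h5 := Quotient.exact h4
      exact Pool.Agent.Helper38.TQ.PEq.symm h5
    obtain ⟨c, hc, h4⟩ := h3
    have h5 : eval (y (Quotient.mk st ⟨x, hx⟩)) φ = 0 := by
      rw [h4, Pool.Agent.Helper38.TQ.eval_smul_hom (ν := 2) hφ, h1, mul_zero]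
    have h6 : eval (y (Quotient.mk st ⟨x, hx⟩)) ψ = 0 := by
      rw [h4, Pool.Agent.Helper38.TQ.eval_smul_hom (ν := 2) hψ, h2, mul_zero]
    exact ⟨_, ⟨_, ⟨h5, h6⟩, rfl⟩,
      Pool.Agent.Helper38.TQ.PEq.trans ⟨c, hc, h4⟩ (hw _ (hy0 _) h5 h6).1⟩

theorem alg_eval {k : IntermediateField ℚ ℂ} {p : MvPolynomial (Fin 3) ℂ}
    (hp : ∀ m, p.coeff m ∈ k) {x : Fin 3 → ℂ} (hx : ∀ i, x i ∈ k) : eval x p ∈ k := by
  rw [eval_eq]
  exact sum_mem fun m _ => mul_mem (hp m) (prod_mem fun i _ => pow_mem (hx i) _)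

theorem alg_iter {k : IntermediateField ℚ ℂ} {f : Fin 3 → MvPolynomial (Fin 3) ℂ}
    (hf : ∀ i m, (f i).coeff m ∈ k) {w : Fin 3 → ℂ}
    (hw : ∀ i, w i ∈ k) (n : ℕ) : ∀ i, iter f w n i ∈ k := by
  induction n with
  | zero => exact hw
  | succ n ih =>
    intro i
    rw [Pool.Agent.Helper36.iter_succ]
    exact alg_eval (hf i) ih

theorem iter_alg {f : Fin 3 → MvPolynomial (Fin 3) ℂ}
    (hf : ∀ i m, IsAlgebraic ℚ ((f i).coeff m)) {w : Fin 3 → ℂ}
    (hw : ∀ i, IsAlgebraic ℚ (w i)) (n : ℕ) : ∀ i, IsAlgebraic ℚ (iter f w n i) := fun i =>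
  mem_algebraicClosure_iff.1 (alg_iter (k := algebraicClosure ℚ ℂ)
    (fun i m => mem_algebraicClosure_iff.2 (hf i m))
    (fun i => mem_algebraicClosure_iff.2 (hw i)) n i)

theorem iter_lift {K : Type} [Field K] [Algebra K ℂ] (F : Fin 3 → MvPolynomial (Fin 3) K)
    (x : Fin 3 → K) (n : ℕ) :
    iter (fun i => map (algebraMap K ℂ) (F i)) (fun i => algebraMap K ℂ (x i)) n =
      fun i => algebraMap K ℂ (iter F x n i) := by
  induction n with
  | zero => rfl
  | succ n ih =>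
    rw [Pool.Agent.Helper36.iter_succ, ih, Pool.Agent.Helper36.iter_succ]
    funext i
    exact (Pool.Agent.Helper38.Sym.map_eval_gen (algebraMap K ℂ) (iter F x n) (F i)).symm

theorem map_comp {K : Type} [Field K] [Algebra K ℂ] (F : Fin 3 → MvPolynomial (Fin 3) K)
    (P : MvPolynomial (Fin 3) K) : map (algebraMap K ℂ) (aeval F P) =
      aeval (fun i => map (algebraMap K ℂ) (F i)) (map (algebraMap K ℂ) P) := by
  induction P using MvPolynomial.induction_on with
  | C a => simp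
  | add p q hp hq => rw [map_add, map_add, map_add, map_add, hp, hq]
  | mul_X p i hp =>
    rw [map_mul, map_mul, map_mul, map_mul, hp, aeval_X, map_X, aeval_X]

/-- The forward orbits of finitely many preperiodic points. -/
theorem exists_orbits {d : ℕ} {f : Fin 3 → MvPolynomial (Fin 3) ℂ} (hf : IsEndo d f)
    (hfa : ∀ i m, IsAlgebraic ℚ ((f i).coeff m)) {W : Set (Fin 3 → ℂ)} (hW : W.Finite)
    (hWa : ∀ w ∈ W, w ≠ 0 ∧ ∀ i, IsAlgebraic ℚ (w i))
    (hpre : ∀ w ∈ W, ∃ n m, n < m ∧ PEq (iter f w n) (iter f w m)) :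
    ∃ W' : Set (Fin 3 → ℂ), W'.Finite ∧ W ⊆ W' ∧
      (∀ w' ∈ W', ∃ w ∈ W, ∃ n, w' = iter f w n) ∧
      (∀ w ∈ W', w ≠ 0 ∧ ∀ i, IsAlgebraic ℚ (w i)) ∧
      ∀ w ∈ W', ∃ w' ∈ W', PEq (step f w) w' := by
  classical
  have hne : ∀ w : Fin 3 → ℂ, w ≠ 0 → ∀ n, iter f w n ≠ 0 := by
    intro w hw n
    induction n with
    | zero => exact hw
    | succ n ih =>
      rw [Pool.Agent.Helper36.iter_succ]
      intro h
      exact ih (hf.nz _ fun i => congrFun h i)
  choose! a b hab hP using hpre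
  refine ⟨⋃ w ∈ W, (fun n => iter f w n) '' {n | n < b w}, ?_, ?_, ?_, ?_, ?_⟩
  · exact hW.biUnion fun w _ => (Set.finite_lt_nat _).image _
  · intro w hw
    refine Set.mem_biUnion hw ⟨0, ?_, rfl⟩
    have := hab w hw
    simp only [Set.mem_ofPred_eq]
    omega
  · intro w' hw'
    obtain ⟨w, hw, n, -, rfl⟩ := Set.mem_iUnion₂.1 hw'
    exact ⟨w, hw, n, rfl⟩
  · intro w' hw'
    obtain ⟨w, hw, n, -, rfl⟩ := Set.mem_iUnion₂.1 hw'
    exact ⟨hne w (hWa w hw).1 n, iter_alg hfa (hWa w hw).2 n⟩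
  · intro w' hw'
    obtain ⟨w, hw, n, hn, rfl⟩ := Set.mem_iUnion₂.1 hw'
    have hn' : n < b w := hn
    dsimp only
    rw [← Pool.Agent.Helper36.iter_succ]
    rcases Nat.lt_or_ge (n + 1) (b w) with h | h
    · exact ⟨_, Set.mem_biUnion hw ⟨n + 1, h, rfl⟩, Pool.Agent.Helper38.TQ.PEq.refl _⟩
    · have h1 : n + 1 = b w := by omega
      rw [h1]
      exact ⟨_, Set.mem_biUnion hw ⟨a w, hab w hw, rfl⟩,
        Pool.Agent.Helper38.TQ.PEq.symm (hP w hw)⟩

/-- **The rank one extension for the plane.** `f` is an endomorphism of the projective plane, `P`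
an irreducible form with `P ∘ f = P * R`, all with algebraic coefficients. The curve of `P` is not
contained in the critical set of `f`; every point of the curve which is critical or a zero of `R`
is preperiodic; no zero of `R` on the curve is periodic and the curve is smooth at the points of
its critical cycles. Then the return sets of algebraic points are finite unions of
progressions. -/
theorem r1_plane {d : ℕ} {f : Fin 3 → MvPolynomial (Fin 3) ℂ} (hf : IsEndo d f)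
    (hfa : ∀ i m, IsAlgebraic ℚ ((f i).coeff m)) {P R : MvPolynomial (Fin 3) ℂ} {δ r : ℕ}
    (hδ : 1 ≤ δ) (hr : r + δ = d * δ) (hP : P.IsHomogeneous δ) (hR : R.IsHomogeneous r)
    (hPa : ∀ m, IsAlgebraic ℚ (P.coeff m)) (hinv : aeval f P = P * R) (hirr : Irreducible P)
    (hnd : ¬ P ∣ jf f * R)
    (hpre : ∀ x : Fin 3 → ℂ, x ≠ 0 → eval x P = 0 → eval x (jf f * R) = 0 →
      ∃ n m, n < m ∧ PEq (iter f x n) (iter f x m))
    (hper : ∀ x : Fin 3 → ℂ, x ≠ 0 → eval x P = 0 → (∃ p, 1 ≤ p ∧ PEq (iter f x p) x) →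
      eval x R ≠ 0)
    (hsm : ∀ x : Fin 3 → ℂ, x ≠ 0 → eval x P = 0 →
      (∃ p, 1 ≤ p ∧ PEq (iter f x p) x ∧ ∃ k < p, eval (iter f x k) (jf f) = 0) →
      ∃ k, eval x (pderiv k P) ≠ 0)
    {a : Fin 3 → ℂ} (ha : a ≠ 0) {c : ℂ} (hc : c ≠ 0)
    (haa : ∀ i, IsAlgebraic ℚ (c * a i)) {V : Set (MvPolynomial (Fin 3) ℂ)}
    (hV : ∀ g ∈ V, ∃ e, g.IsHomogeneous e) :
    ∃ T : Finset (ℕ × ℕ), {n : ℕ | ∀ g ∈ V, eval ((fun (x : Fin 3 → ℂ)
        (i : Fin 3) => eval x (f i))^[n] a) g = 0} =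
      {n : ℕ | ∃ q ∈ T, ∃ m : ℕ, n = q.1 * m + q.2} := by
  classical
  have hJh : (jf f).IsHomogeneous ((2 + 1) * (d - 1)) :=
    Pool.Agent.Helper30.TKN.jf_hom (ν := 2) hf.hom
  have hd : 2 ≤ d := hf.two_le
  obtain ⟨hRa, hJa⟩ : (∀ m, IsAlgebraic ℚ (R.coeff m)) ∧
      ∀ m, IsAlgebraic ℚ ((jf f * R).coeff m) := by
    let k : IntermediateField ℚ ℂ := algebraicClosure ℚ ℂ
    choose F hF using fun i => exists_liftF (ν := 2) k (p := f i)
      fun m => mem_algebraicClosure_iff.2 (hfa i m)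
    obtain ⟨P', hP'⟩ := exists_liftF (ν := 2) k (p := P)
      fun m => mem_algebraicClosure_iff.2 (hPa m)
    have hFf : (fun i => map (algebraMap k ℂ) (F i)) = f := funext hF
    have h1 : map (algebraMap k ℂ) (aeval F P') = map (algebraMap k ℂ) P' * R := by
      rw [map_comp, hP', hFf, hinv]
    obtain ⟨R', hR', -⟩ := exists_quotient (fun h => hirr.ne_zero (by
      rw [← hP', h, map_zero])) h1
    refine ⟨fun m => ?_, fun m => ?_⟩
    · rw [← hR', coeff_map]
      exact mem_algebraicClosure_iff.1 (R'.coeff m).2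
    · have h2 : jf f * R = map (algebraMap k ℂ) (jf F * R') := by
        rw [map_mul, map_jf, hFf, hR']
      rw [h2, coeff_map]
      exact mem_algebraicClosure_iff.1 ((jf F * R').coeff m).2
  obtain ⟨W₀, hW₀f, hW₀, hW₀c⟩ := alg_zeros hP (hJh.mul hR) hPa hJa hirr hnd
  obtain ⟨W₁, hW₁f, hsub, hfrom, hW₁a, hW₁n⟩ := exists_orbits hf hfa hW₀f
    (fun w hw => ⟨(hW₀ w hw).1, (hW₀ w hw).2.1⟩)
    (fun w hw => hpre w (hW₀ w hw).1 (hW₀ w hw).2.2.1 (hW₀ w hw).2.2.2)
  have hW₁P : ∀ w ∈ W₁, eval w P = 0 := by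
    intro w' hw'
    obtain ⟨w, hw, n, rfl⟩ := hfrom w' hw'
    have h0 := (hW₀ w hw).2.2.1
    clear hw'
    induction n with
    | zero => exact h0
    | succ n ih =>
      rw [Pool.Agent.Helper36.iter_succ]
      have h2 := ChainM_eval (F := f) P (iter f w n)
      rw [← h2, hinv, map_mul, ih, zero_mul]
  have := hW₁f.to_subtype
  obtain ⟨K, hK, hKp, hKc⟩ := exists_field (ν := 2) (ι := (Fin 3 ⊕ Unit) ⊕ Unit)
    (κ := Fin 3 ⊕ (W₁ × Fin 3))
    (Sum.elim (Sum.elim f fun _ => P) fun _ => R) (by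
      rintro ((i | i) | i) m
      · exact hfa i m
      · exact hPa m
      · exact hRa m)
    (Sum.elim (fun i => c * a i) fun q => (q.1 : Fin 3 → ℂ) q.2) (by
      rintro (i | q)
      · exact haa i
      · exact (hW₁a _ q.1.2).2 q.2)
  choose F hF using fun i => exists_liftF (ν := 2) K (p := f i)
    fun m => hKp (Sum.inl (Sum.inl i)) m
  obtain ⟨P', hP'⟩ := exists_liftF (ν := 2) K (p := P) fun m => hKp (Sum.inl (Sum.inr ())) m
  obtain ⟨R', hR'⟩ := exists_liftF (ν := 2) K (p := R) fun m => hKp (Sum.inr ()) m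
  have hFf : (fun i => map (algebraMap K ℂ) (F i)) = f := funext hF
  have hFe : IsEndo d fun i => map (algebraMap K ℂ) (F i) := by
    rw [hFf]
    exact hf
  have hev : ∀ (Q : MvPolynomial (Fin 3) K) (y : Fin 3 → ℂ),
      aeval y Q = eval y (map (algebraMap K ℂ) Q) := by
    intro Q y
    rw [eval_map]
    rfl
  have hlift : ∀ (x : Fin 3 → K) n, iter f (fun i => algebraMap K ℂ (x i)) n =
      fun i => algebraMap K ℂ (iter F x n i) := by
    intro x n
    rw [← hFf]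
    exact iter_lift F x n
  have hup : ∀ {x y : Fin 3 → K}, PEq x y →
      PEq (fun i => algebraMap K ℂ (x i)) (fun i => algebraMap K ℂ (y i)) := by
    rintro x y ⟨u, hu, rfl⟩
    refine ⟨algebraMap K ℂ u, (map_ne_zero _).2 hu, ?_⟩
    funext i
    simp
  let x : Fin 3 → K := fun i => ⟨c * a i, hKc (Sum.inl i)⟩
  have hx : (fun i => algebraMap K ℂ (x i)) = fun i => c * a i := rfl
  have hx0 : x ≠ 0 := by
    intro h
    apply ha
    funext i
    have h1 : algebraMap K ℂ (x i) = 0 := by rw [h]; simp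
    exact (mul_eq_zero.1 (show c * a i = 0 from h1)).resolve_left hc
  let W : Set (Fin 3 → K) := {w | (fun i => algebraMap K ℂ (w i)) ∈ W₁}
  have hWf : W.Finite := by
    refine Set.Finite.preimage (f := fun (w : Fin 3 → K) i => algebraMap K ℂ (w i)) ?_ hW₁f
    intro u _ v _ huv
    funext i
    exact (algebraMap K ℂ).injective (congrFun huv i)
  have hWl : ∀ w ∈ W₁, ∃ w' : Fin 3 → K, (fun i => algebraMap K ℂ (w' i)) = w := by
    intro w hw
    exact ⟨fun i => ⟨w i, hKc (Sum.inr (⟨w, hw⟩, i))⟩, rfl⟩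
  have hW0 : ∀ w ∈ W, w ≠ 0 := by
    intro w hw h
    apply (hW₁a _ hw).1
    funext i
    simp [h]
  have hWne : W.Nonempty := by
    obtain ⟨p, hp, h1, h2⟩ := Pool.Agent.Helper30.TP.exists_common_zero hP (by omega)
      (hJh.mul hR) (by omega)
    obtain ⟨w, hw, -⟩ := hW₀c p hp h1 h2
    obtain ⟨w', hw'⟩ := hWl w (hsub hw)
    refine ⟨w', ?_⟩
    change (fun i => algebraMap K ℂ (w' i)) ∈ W₁
    rw [hw']
    exact hsub hw
  have hjf : map (algebraMap K ℂ) (jf F) = jf f := by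
    rw [map_jf, hFf]
  have hev' : ∀ (Q : MvPolynomial (Fin 3) K) (w : Fin 3 → K), algebraMap K ℂ (eval w Q) =
      eval (fun i => algebraMap K ℂ (w i)) (map (algebraMap K ℂ) Q) := fun Q w =>
    Pool.Agent.Helper38.Sym.map_eval_gen (algebraMap K ℂ) w Q
  have hFne : ∀ (w : Fin 3 → K), w ≠ 0 → ∀ n, iter F w n ≠ 0 := fun w hw n => MainN_ne hFe hw n
  have key := r1_number hFe (P := P') (R := R') hδ hr (by
      rw [← hP'] at hP
      exact hP.of_map (algebraMap K ℂ).injective) (by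
      rw [← hR'] at hR
      exact hR.of_map (algebraMap K ℂ).injective) (by
      apply map_injective _ (algebraMap K ℂ).injective
      rw [map_mul, hP', hR', ← hinv, map_comp, hP', hFf]) (by
      rw [hP']
      exact hirr) hWf hWne hW0 (fun w hw => ?_) (fun w hw => ?_) (fun w hw h => ?_)
      (fun w hw h => ?_) (fun y hy h1 h2 => ?_) hx0 hV
  · have h1 := MainN_sets hFe x (inv_ne_zero hc) V hV
    have h3 : (fun i => c⁻¹ * algebraMap K ℂ (x i)) = a := by
      funext i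
      rw [show algebraMap K ℂ (x i) = c * a i from congrFun hx i, ← mul_assoc, inv_mul_cancel₀ hc,
        one_mul]
    have h4 : (fun (x : Fin 3 → ℂ) (i : Fin 3) =>
        eval x (map (algebraMap K ℂ) (F i))) = fun x i => eval x (f i) := by
      funext x i
      rw [← hFf]
    have h5 : {n : ℕ | ∀ g ∈ V, eval ((fun (x : Fin 3 → ℂ) (i : Fin 3) =>
        eval x (f i))^[n] a) g = 0} =
        {n : ℕ | ∀ g ∈ V, eval (fun i => algebraMap K ℂ (iter F x n i)) g = 0} := by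
      rw [← h1, h3, h4]
    rw [h5]
    exact key
  · obtain ⟨w₁, hw₁, h1⟩ := hW₁n _ hw
    obtain ⟨w', hw'⟩ := hWl w₁ hw₁
    refine ⟨w', ?_, ?_⟩
    · change (fun i => algebraMap K ℂ (w' i)) ∈ W₁
      rw [hw']
      exact hw₁
    · have h2 : step f (fun i => algebraMap K ℂ (w i)) =
          fun i => algebraMap K ℂ (step F w i) := hlift w 1
      rw [h2, ← hw'] at h1
      refine Pool.Agent.Helper38.TQ.PEq.descend (algebraMap K ℂ) (hFne w (hW0 w hw) 1) ?_ h1
      intro h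
      apply (hW₁a _ hw₁).1
      rw [← hw']
      funext i
      simp [h]
  · apply (algebraMap K ℂ).injective
    rw [hev', hP', map_zero]
    exact hW₁P _ hw
  · obtain ⟨p, hp, h1⟩ := h
    intro h2
    refine hper _ (hW₁a _ hw).1 (hW₁P _ hw) ⟨p, hp, ?_⟩ ?_
    · rw [hlift]
      exact hup h1
    · rw [← hR', ← hev', h2, map_zero]
  · obtain ⟨p, hp, h1, k, hk, h2⟩ := h
    obtain ⟨l, hl⟩ := hsm _ (hW₁a _ hw).1 (hW₁P _ hw) ⟨p, hp, by
      rw [hlift]
      exact hup h1, k, hk, by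
      rw [hlift, ← hjf, ← hev', h2, map_zero]⟩
    refine ⟨l, fun h3 => hl ?_⟩
    rw [← hP', pderiv_map, ← hev', h3, map_zero]
  · rw [hev, hP'] at h1
    rw [hev, map_mul, hjf, hR'] at h2
    obtain ⟨w, hw, h3⟩ := hW₀c y hy h1 h2
    obtain ⟨w', hw'⟩ := hWl w (hsub hw)
    refine ⟨w', ?_, ?_⟩
    · change (fun i => algebraMap K ℂ (w' i)) ∈ W₁
      rw [hw']
      exact hsub hw
    · rw [hw']
      exact h3

end Pool.Agent.Helper41.R1
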