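import Pool.Agent.Helper41.R1.Slow
import Pool.Agent.Helper30.TKN.Defs
import Pool.Agent.Helper36.Growth
import Pool.Agent.Helper67.LGS.Jac

/-!
# Iterates of forms and an invariant hypersurface

`iter F X p` are the forms of the iterate.
-/

set_option autoImplicit false

namespace Pool.Agent.Helper41.R1

open MvPolynomial
open Pool.Agent.Helper36 (step iter)
open Pool.Agent.Helper30.TKN (jf)

variable {ν : ℕ} {K : Type} [Field K]

theorem itf_hom {F : Fin (ν + 1) → MvPolynomial (Fin (ν + 1)) K} {d : ℕ}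
    (hF : ∀ i, (F i).IsHomogeneous d) (p : ℕ) (i : Fin (ν + 1)) :
    (iter F (X : Fin (ν + 1) → MvPolynomial (Fin (ν + 1)) K) p i).IsHomogeneous (d ^ p) := by
  induction p generalizing i with
  | zero => exact isHomogeneous_X K i
  | succ p ih =>
    rw [Pool.Agent.Helper36.iter_succ, pow_succ]
    exact (hF i).aeval _ ih

theorem itf_aeval {A : Type} [CommRing A] [Algebra K A]
    {F : Fin (ν + 1) → MvPolynomial (Fin (ν + 1)) K} (p : ℕ) (x : Fin (ν + 1) → A)
    (i : Fin (ν + 1)) :
    aeval x (iter F (X : Fin (ν + 1) → MvPolynomial (Fin (ν + 1)) K) p i) = iter F x p i := by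
  induction p generalizing i with
  | zero => exact aeval_X x i
  | succ p ih =>
    rw [Pool.Agent.Helper36.iter_succ, Pool.Agent.Helper36.iter_succ]
    change aeval x (aeval _ (F i)) = aeval _ (F i)
    rw [comp_aeval_apply]
    congr 2
    funext j
    exact ih j

theorem itf_eval {F : Fin (ν + 1) → MvPolynomial (Fin (ν + 1)) K} (p : ℕ)
    (x : Fin (ν + 1) → K) (i : Fin (ν + 1)) :
    eval x (iter F (X : Fin (ν + 1) → MvPolynomial (Fin (ν + 1)) K) p i) = iter F x p i := by
  rw [← itf_aeval p x i]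
  exact (congrArg (fun φ => φ (iter F (X : Fin (ν + 1) → MvPolynomial (Fin (ν + 1)) K) p i))
    (coe_aeval_eq_eval x)).symm

theorem itf_comp {F : Fin (ν + 1) → MvPolynomial (Fin (ν + 1)) K} (p : ℕ)
    (x : Fin (ν + 1) → K) (g : MvPolynomial (Fin (ν + 1)) K) :
    eval x (aeval (iter F (X : Fin (ν + 1) → MvPolynomial (Fin (ν + 1)) K) p) g) =
      eval (iter F x p) g := by
  have h1 := congrArg (fun φ => φ (aeval
    (iter F (X : Fin (ν + 1) → MvPolynomial (Fin (ν + 1)) K) p) g)) (coe_aeval_eq_eval x)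
  have h2 := congrArg (fun φ => φ g) (coe_aeval_eq_eval (iter F x p))
  refine h1.symm.trans (Eq.trans ?_ h2)
  change aeval x (aeval _ g) = aeval _ g
  rw [comp_aeval_apply]
  congr 2
  funext j
  exact itf_aeval p x j

theorem itf_succ {F : Fin (ν + 1) → MvPolynomial (Fin (ν + 1)) K} (p : ℕ)
    (g : MvPolynomial (Fin (ν + 1)) K) :
    aeval (iter F (X : Fin (ν + 1) → MvPolynomial (Fin (ν + 1)) K) (p + 1)) g =
      aeval (iter F (X : Fin (ν + 1) → MvPolynomial (Fin (ν + 1)) K) p) (aeval F g) := by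
  rw [comp_aeval_apply, Pool.Agent.Helper36.iter_succ]
  rfl

/-- The invariant hypersurface for the iterate. -/
theorem itf_inv {F : Fin (ν + 1) → MvPolynomial (Fin (ν + 1)) K}
    {P R : MvPolynomial (Fin (ν + 1)) K} (hinv : aeval F P = P * R) (p : ℕ) :
    ∃ R' : MvPolynomial (Fin (ν + 1)) K,
      aeval (iter F (X : Fin (ν + 1) → MvPolynomial (Fin (ν + 1)) K) p) P = P * R' ∧
      ∀ z : Fin (ν + 1) → K, (∀ k < p, eval (iter F z k) R ≠ 0) → eval z R' ≠ 0 := by
  induction p with
  | zero =>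
    refine ⟨1, ?_, fun z _ => by rw [map_one]; exact one_ne_zero⟩
    rw [mul_one]
    exact aeval_X_left_apply P
  | succ p ih =>
    obtain ⟨R', h1, h2⟩ := ih
    refine ⟨R' * aeval (iter F (X : Fin (ν + 1) → MvPolynomial (Fin (ν + 1)) K) p) R, ?_,
      fun z hz => ?_⟩
    · rw [itf_succ, hinv, map_mul, h1, mul_assoc]
    · rw [map_mul, itf_comp]
      exact mul_ne_zero (h2 z fun k hk => hz k (by omega)) (hz p (by omega))

/-- The chain rule for the Jacobian determinant. -/
theorem itf_jf_succ (F : Fin (ν + 1) → MvPolynomial (Fin (ν + 1)) K) (p : ℕ) :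
    jf (iter F (X : Fin (ν + 1) → MvPolynomial (Fin (ν + 1)) K) (p + 1)) =
      aeval (iter F (X : Fin (ν + 1) → MvPolynomial (Fin (ν + 1)) K) p) (jf F) *
        jf (iter F (X : Fin (ν + 1) → MvPolynomial (Fin (ν + 1)) K) p) := by
  unfold jf
  rw [AlgHom.map_det, ← Matrix.det_mul]
  congr 1
  ext1 i k
  rw [Matrix.mul_apply]
  have h1 : iter F (X : Fin (ν + 1) → MvPolynomial (Fin (ν + 1)) K) (p + 1) i =
      aeval (iter F (X : Fin (ν + 1) → MvPolynomial (Fin (ν + 1)) K) p) (F i) := by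
    rw [Pool.Agent.Helper36.iter_succ]
    rfl
  simp only [Matrix.of_apply, AlgHom.mapMatrix_apply, Matrix.map_apply]
  rw [h1, Pool.Agent.Helper67.LGS.pderiv_aeval]

/-- The Jacobian determinant of the iterate (chain rule). -/
theorem itf_jf {F : Fin (ν + 1) → MvPolynomial (Fin (ν + 1)) K} {p : ℕ} {z : Fin (ν + 1) → K}
    (h : ∃ k < p, eval (iter F z k) (jf F) = 0) :
    eval z (jf (iter F (X : Fin (ν + 1) → MvPolynomial (Fin (ν + 1)) K) p)) = 0 := by
  induction p with
  | zero =>
    obtain ⟨k, hk, -⟩ := h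
    exact absurd hk (Nat.not_lt_zero k)
  | succ p ih =>
    obtain ⟨k, hk, h0⟩ := h
    rw [itf_jf_succ, map_mul, itf_comp]
    rcases Nat.lt_succ_iff_lt_or_eq.1 hk with h1 | h1
    · rw [ih ⟨k, h1, h0⟩, mul_zero]
    · rw [← h1, h0, zero_mul]

/-- The transversal condition. -/
theorem trans_of_inv {i₀ : Fin (ν + 1)} {z : Fin (ν + 1) → K}
    {G : Fin (ν + 1) → MvPolynomial (Fin (ν + 1)) K} (hGz : eval z (G i₀) ≠ 0)
    {P R : MvPolynomial (Fin (ν + 1)) K} {δ : ℕ} (hP : P.IsHomogeneous δ) (hP0 : eval z P = 0)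
    (hinv : aeval G P = P * R) (hR : eval z R ≠ 0) :
    Trans i₀ z G P (G i₀ ^ δ) R where
  κ_ne := by
    rw [map_pow]
    exact pow_ne_zero _ hGz
  R_ne := hR
  P_zero := hP0
  rel y hy hy0 := by
    have h1 : gam i₀ G y = fun i => (eval y (G i₀))⁻¹ * eval y (G i) := by
      funext i
      unfold gam
      rw [div_eq_mul_inv, mul_comm]
    have h2 := Pool.Agent.Helper36.aeval_smul_homogeneous hP (eval y (G i₀))⁻¹
      (fun i => eval y (G i))
    have h3 : eval (gam i₀ G y) P = (eval y (G i₀))⁻¹ ^ δ * eval (fun i => eval y (G i)) P := by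
      rw [h1]
      have h4 := congrArg (fun φ => φ P)
        (coe_aeval_eq_eval (fun i => (eval y (G i₀))⁻¹ * eval y (G i)))
      have h5 := congrArg (fun φ => φ P) (coe_aeval_eq_eval (fun i => eval y (G i)))
      refine h4.symm.trans (h2.trans ?_)
      exact congrArg (fun t => (eval y (G i₀))⁻¹ ^ δ * t) h5
    have h4 : eval (fun i => eval y (G i)) P = eval y P * eval y R := by
      have h5 := congrArg (eval y) hinv
      rw [map_mul] at h5
      rw [← h5]
      have h6 := congrArg (fun φ => φ (aeval G P)) (coe_aeval_eq_eval y)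
      have h7 := congrArg (fun φ => φ P) (coe_aeval_eq_eval (fun i => eval y (G i)))
      refine h7.symm.trans (Eq.trans ?_ h6)
      change aeval (fun i => eval y (G i)) P = aeval y (aeval G P)
      rw [comp_aeval_apply]
      congr 2
    rw [h3, h4, map_pow, inv_pow, ← mul_assoc, mul_inv_cancel₀ (pow_ne_zero _ hy0), one_mul]
    exact mul_comm _ _

end Pool.Agent.Helper41.R1
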