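import Pool.Agent.Helper41.TH.Lin
import Pool.Agent.Helper36.Iter

/-!
# An inequality of Lojasiewicz type at a point of a curve

`P` vanishes at `z`, `f` does not vanish on the curve: `κ P ^ N = β f` on the curve, `κ(z) ≠ 0`.
-/

set_option autoImplicit false

namespace Pool.Agent.Helper41.R1

open MvPolynomial Filter Topology
open Pool.Agent.Helper72.TH (OnCF)
open Pool.Agent.Helper41.TH (bin_ne exists_rel)

variable {ν : ℕ} {K : Type} [Field K]

/-- The normalised point. -/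
def nz (i₀ : Fin (ν + 1)) (x : Fin (ν + 1) → K) : Fin (ν + 1) → K := fun i => x i / x i₀

theorem nz_self {i₀ : Fin (ν + 1)} {x : Fin (ν + 1) → K} (h : x i₀ ≠ 0) : nz i₀ x i₀ = 1 :=
  div_self h

theorem eval_scale {ι : Type} {g : MvPolynomial ι K} {e : ℕ} (hg : g.IsHomogeneous e) (c : K)
    (u : ι → K) : eval (fun j => c * u j) g = c ^ e * eval u g := by
  have h1 := Pool.Agent.Helper36.aeval_smul_homogeneous hg c u
  rwa [aeval_eq_eval, aeval_eq_eval] at h1

theorem eval_nz {i₀ : Fin (ν + 1)} (x : Fin (ν + 1) → K)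
    {g : MvPolynomial (Fin (ν + 1)) K} {e : ℕ} (hg : g.IsHomogeneous e) :
    eval (nz i₀ x) g = (x i₀)⁻¹ ^ e * eval x g := by
  rw [← eval_scale hg]
  congr 2
  funext i
  unfold nz
  rw [div_eq_mul_inv, mul_comm]

/-- The remainder of a polynomial of three variables on the line where the first is zero. -/
theorem split_zero (R : MvPolynomial (Fin 3) K) : ∃ S : MvPolynomial (Fin 3) K,
    ∀ a b c : K, eval ![a, b, c] R = eval ![0, b, c] R + a * eval ![a, b, c] S := by
  induction R using MvPolynomial.induction_on with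
  | C r => exact ⟨0, fun a b c => by simp⟩
  | add p q hp hq =>
    obtain ⟨S, hS⟩ := hp
    obtain ⟨T, hT⟩ := hq
    refine ⟨S + T, fun a b c => ?_⟩
    rw [map_add, map_add, map_add, hS, hT]
    ring
  | mul_X p i hp =>
    obtain ⟨S, hS⟩ := hp
    fin_cases i
    · refine ⟨p, fun a b c => ?_⟩
      simp only [Fin.zero_eta, map_mul, eval_X, Matrix.cons_val_zero]
      ring
    · refine ⟨S * X 1, fun a b c => ?_⟩
      simp only [Fin.mk_one, map_mul, eval_X, Matrix.cons_val_one, Matrix.cons_val_zero]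
      rw [hS]
      ring
    · refine ⟨S * X 2, fun a b c => ?_⟩
      simp only [Fin.reduceFinMk, map_mul, eval_X, Matrix.cons_val]
      rw [hS]
      ring

theorem exists_loj {𝒰 : Ultrafilter ℕ} {x : ℕ → Fin (ν + 1) → K} (hcf : OnCF 𝒰 x)
    {z : Fin (ν + 1) → K} {i₀ : Fin (ν + 1)}
    {P f : MvPolynomial (Fin (ν + 1)) K} {δ ε : ℕ} (hδ : 1 ≤ δ) (hε : 1 ≤ ε)
    (hP : P.IsHomogeneous δ) (hf : f.IsHomogeneous ε) (hP0 : eval z P = 0)
    (hfx : ∀ᶠ n in (𝒰 : Filter ℕ), eval (x n) f ≠ 0) :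
    ∃ (κ β : MvPolynomial (Fin (ν + 1)) K) (N : ℕ), eval z κ ≠ 0 ∧
      ∀ᶠ n in (𝒰 : Filter ℕ), x n i₀ ≠ 0 →
        eval (nz i₀ (x n)) κ * eval (nz i₀ (x n)) P ^ N =
          eval (nz i₀ (x n)) β * eval (nz i₀ (x n)) f := by
  classical
  have hA : (P ^ ε).IsHomogeneous (δ * ε) := hP.pow ε
  have hB : (f ^ δ).IsHomogeneous (δ * ε) := by
    rw [mul_comm]
    exact hf.pow δ
  have hC : ((X i₀ : MvPolynomial (Fin (ν + 1)) K) ^ (δ * ε)).IsHomogeneous (δ * ε) := by
    have := (isHomogeneous_X K i₀).pow (δ * ε)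
    rwa [one_mul] at this
  obtain ⟨R, k, hR0, hRk, hR⟩ := hcf (δ * ε) ![f ^ δ, X i₀ ^ (δ * ε), P ^ ε] (by
    intro j
    fin_cases j
    · exact hB
    · exact hC
    · exact hA)
  obtain ⟨R, k, m₀, hRk, hm₀, hm0, hR⟩ := exists_rel
    (z := fun n j => eval (x n) ((![f ^ δ, X i₀ ^ (δ * ε), P ^ ε] :
      Fin 3 → MvPolynomial (Fin (ν + 1)) K) j)) ⟨R, k, hR0, hRk, hR⟩ (by
      filter_upwards [hfx] with n hn
      change eval (x n) (f ^ δ) ≠ 0
      rw [map_pow]
      exact pow_ne_zero _ hn)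
  set q : Polynomial K := aeval (![0, 1, Polynomial.X] : Fin 3 → Polynomial K) R with hq
  have hq0 : q ≠ 0 := bin_ne hRk hm₀ hm0
  obtain ⟨q', hq', hq'0⟩ := Polynomial.exists_eq_pow_rootMultiplicity_mul_and_not_dvd q hq0 0
  set j := Polynomial.rootMultiplicity 0 q with hj
  have hq'e : Polynomial.eval 0 q' ≠ 0 := by
    intro h
    exact hq'0 (Polynomial.dvd_iff_isRoot.2 h)
  have hqev : ∀ t : K, eval ![0, 1, t] R = t ^ j * Polynomial.eval t q' := by
    intro t
    have h1 : Polynomial.eval t q = eval ![0, 1, t] R := by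
      rw [hq, ← Polynomial.coe_aeval_eq_eval, ← coe_aeval_eq_eval]
      change Polynomial.aeval t (aeval _ R) = aeval _ R
      rw [comp_aeval_apply]
      congr 2
      funext i
      fin_cases i <;> simp
    rw [← h1]
    conv_lhs => rw [hq']
    simp
  obtain ⟨S, hS⟩ := split_zero R
  refine ⟨Polynomial.aeval (P ^ ε) q',
    -(f ^ (δ - 1) * aeval (![f ^ δ, 1, P ^ ε] : Fin 3 → MvPolynomial (Fin (ν + 1)) K) S),
    ε * j, ?_, ?_⟩
  · have h1 : eval z (Polynomial.aeval (P ^ ε) q') = Polynomial.eval (eval z (P ^ ε)) q' := by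
      rw [← coe_aeval_eq_eval, ← Polynomial.coe_aeval_eq_eval]
      exact (Polynomial.aeval_algHom_apply (aeval z) (P ^ ε) q').symm
    rw [h1, map_pow, hP0, zero_pow (by omega)]
    exact hq'e
  · filter_upwards [hR] with n hn hn0
    set y := nz i₀ (x n) with hy
    have hy0 : y i₀ = 1 := nz_self hn0
    -- the relation at the normalised point
    have h1 : eval ![eval y f ^ δ, 1, eval y P ^ ε] R = 0 := by
      have h2 := eval_scale hRk ((x n i₀)⁻¹ ^ (δ * ε))
        (fun j => eval (x n) ((![f ^ δ, X i₀ ^ (δ * ε), P ^ ε] :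
          Fin 3 → MvPolynomial (Fin (ν + 1)) K) j))
      have h3 : eval (fun j => eval (x n) ((![f ^ δ, X i₀ ^ (δ * ε), P ^ ε] :
          Fin 3 → MvPolynomial (Fin (ν + 1)) K) j)) R = 0 := hn
      rw [h3, mul_zero] at h2
      rw [← h2]
      congr 2
      funext i
      fin_cases i
      · change eval y f ^ δ = (x n i₀)⁻¹ ^ (δ * ε) * eval (x n) (f ^ δ)
        rw [← eval_nz (x n) hB, map_pow]
      · change (1 : K) = (x n i₀)⁻¹ ^ (δ * ε) * eval (x n) (X i₀ ^ (δ * ε))
        rw [← eval_nz (x n) hC, map_pow, eval_X, nz_self hn0, one_pow]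
      · change eval y P ^ ε = (x n i₀)⁻¹ ^ (δ * ε) * eval (x n) (P ^ ε)
        rw [← eval_nz (x n) hA, map_pow]
    rw [hS, hqev] at h1
    have h4 : eval y (Polynomial.aeval (P ^ ε) q') = Polynomial.eval (eval y P ^ ε) q' := by
      rw [← map_pow, ← coe_aeval_eq_eval, ← Polynomial.coe_aeval_eq_eval]
      exact (Polynomial.aeval_algHom_apply (aeval y) (P ^ ε) q').symm
    have h5 : eval y (aeval (![f ^ δ, 1, P ^ ε] : Fin 3 → MvPolynomial (Fin (ν + 1)) K) S) =
        eval ![eval y f ^ δ, 1, eval y P ^ ε] S := by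
      rw [← coe_aeval_eq_eval, ← coe_aeval_eq_eval]
      change aeval y (aeval _ S) = aeval _ S
      rw [comp_aeval_apply]
      congr 2
      funext i
      fin_cases i <;> simp [coe_aeval_eq_eval, aeval_eq_eval]
    rw [h4, map_neg, map_mul, map_pow, h5, pow_mul]
    have h6 : eval y f ^ δ = eval y f ^ (δ - 1) * eval y f := by
      rw [← pow_succ, Nat.sub_add_cancel hδ]
    rw [h6] at h1 ⊢
    linear_combination h1

end Pool.Agent.Helper41.R1
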