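import Pool.Agent.Helper41.R1.Bad
import Pool.Agent.Helper41.R1.Iter
import Pool.Agent.Helper41.R1.Count
import Pool.Agent.Helper72.TH.AlgDep

/-!
# The closure of an orbit along an ultrafilter
-/

set_option autoImplicit false

namespace Pool.Agent.Helper41.R1

open MvPolynomial Height Height.AdmissibleAbsValues Filter Topology
open Pool.Agent.Helper36 (step iter)
open Pool.Agent.Helper38.TQ (IsEndo PEq)
open Pool.Agent.Helper29.TG
open Pool.Agent.Helper72.TH
open Pool.Agent.Helper30.TKN (jf)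
open Pool.Agent.Helper72.PN (MainN_endo MainN_ne MainN_hom)

variable {ν : ℕ}

/-- The differential of `G` at the fixed point `w` is zero along the hypersurface `P = 0`. -/
def NilAt {K : Type} [Field K] (G : Fin (ν + 1) → MvPolynomial (Fin (ν + 1)) K)
    (P : MvPolynomial (Fin (ν + 1)) K) (w : Fin (ν + 1) → K) : Prop :=
  ∃ i₀, w i₀ ≠ 0 ∧ ∃ β : Fin (ν + 1) → K, ∀ i k,
    eval (nz i₀ w) (pderiv k (G i)) - nz i₀ w i * eval (nz i₀ w) (pderiv k (G i₀)) =
      β i * eval (nz i₀ w) (pderiv k P)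

theorem gam_nz {K : Type} [Field K] {i₀ : Fin (ν + 1)}
    {G : Fin (ν + 1) → MvPolynomial (Fin (ν + 1)) K} {D : ℕ} (hG : ∀ i, (G i).IsHomogeneous D)
    (x : Fin (ν + 1) → K) (hx : x i₀ ≠ 0) :
    gam i₀ G (nz i₀ x) = nz i₀ (fun i => eval x (G i)) := by
  funext i
  unfold gam
  rw [eval_nz x (hG i), eval_nz x (hG i₀)]
  unfold nz
  rw [mul_div_mul_left _ _ (pow_ne_zero _ (inv_ne_zero hx))]

/-- A common period of the periodic points of a map of a finite set. -/
theorem exists_period {s : ℕ} (σ : Fin s → Fin s) : ∃ p, 1 ≤ p ∧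
    ∀ i, (∃ q, 1 ≤ q ∧ σ^[q] i = i) → σ^[p] i = i := by
  classical
  have h1 : ∀ i, ∃ q, 1 ≤ q ∧ ((∃ q, 1 ≤ q ∧ σ^[q] i = i) → σ^[q] i = i) := by
    intro i
    by_cases h : ∃ q, 1 ≤ q ∧ σ^[q] i = i
    · obtain ⟨q, hq, h⟩ := h
      exact ⟨q, hq, fun _ => h⟩
    · exact ⟨1, le_rfl, fun h' => absurd h' h⟩
  choose q hq1 hq2 using h1
  refine ⟨∏ i, q i, Nat.one_le_iff_ne_zero.2 (Finset.prod_ne_zero_iff.2 fun i _ => by
    have := hq1 i
    omega), fun i hi => ?_⟩
  obtain ⟨m, hm⟩ := Finset.dvd_prod_of_mem q (Finset.mem_univ i)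
  rw [hm, Function.iterate_mul]
  exact Function.iterate_fixed (hq2 i hi) m

theorem r1_main {K : Type} [Field K] [NumberField K] [Algebra K ℂ] {d : ℕ}
    {F : Fin (ν + 1) → MvPolynomial (Fin (ν + 1)) K}
    (hF : IsEndo d fun i => map (algebraMap K ℂ) (F i))
    {P R : MvPolynomial (Fin (ν + 1)) K} {δ r : ℕ} (hδ : 1 ≤ δ) (hr : r + δ = d * δ)
    (hP : P.IsHomogeneous δ) (hR : R.IsHomogeneous r) (hinv : aeval F P = P * R)
    {s : ℕ} {c : Fin s → Fin (ν + 1) → K} {σ : Fin s → Fin s} {t : Fin s → K}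
    (hc : CritD ℂ F P R c σ t)
    (hnil : ∀ i p, 1 ≤ p → σ^[p] i = i → (∃ k < p, eval (c (σ^[k] i)) (jf F) = 0) →
      NilAt (iter F (X : Fin (ν + 1) → MvPolynomial (Fin (ν + 1)) K) p) P (c i))
    {x : Fin (ν + 1) → K} (hx : x ≠ 0)
    (hpre : ¬ ∃ n m, n < m ∧ PEq (iter F x n) (iter F x m))
    (hPx : ∀ n, eval (iter F x n) P ≠ 0) {𝒰 : Ultrafilter ℕ} (h𝒰 : (𝒰 : Filter ℕ) ≤ atTop)
    (hcur : OnC 𝒰 fun n => iter F x n) :
    Pool.Agent.Helper38.Sym.DMLgen (fun i => map (algebraMap K ℂ) (F i))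
      (fun i => algebraMap K ℂ (x i)) ∨
    ∃ p : ℕ, 1 ≤ p ∧ ∀ (g : MvPolynomial (Fin (ν + 1)) K) (e : ℕ), g.IsHomogeneous e →
      (∀ᶠ n in (𝒰 : Filter ℕ), eval (iter F x n) g = 0) →
      ∀ᶠ n in (𝒰 : Filter ℕ), eval (iter F x (n + p)) g = 0 := by
  classical
  by_contra hcon
  rw [not_or] at hcon
  obtain ⟨hdml, hcon⟩ := hcon
  obtain ⟨p, hp1, hper⟩ := exists_period σ
  push Not at hcon
  obtain ⟨g, e, hg, hgx, hgf⟩ := hcon p hp1
  have hne : ∀ n, iter F x n ≠ 0 := fun n => MainN_ne hF hx n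
  have hhom : ∀ i, (F i).IsHomogeneous d := fun i => MainN_hom hF i
  have hd : 2 ≤ d := hF.two_le
  have hnz : ∀ y : Fin (ν + 1) → ℂ, (∀ i, aeval y (F i) = 0) → y = 0 := by
    intro y hy
    refine hF.nz y fun i => ?_
    rw [eval_map]
    exact hy i
  have hcr := cr_ne hF hx hpre
  set G : Fin (ν + 1) → MvPolynomial (Fin (ν + 1)) K := iter F X p with hGdef
  have hG : ∀ i, (G i).IsHomogeneous (d ^ p) := fun i => itf_hom hhom p i
  have hGe : ∀ y : Fin (ν + 1) → K, (fun i => eval y (G i)) = iter F y p := fun y =>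
    funext fun i => itf_eval p y i
  have hD : 1 ≤ d ^ p := Nat.one_le_pow _ _ (by omega)
  have hfe : ∀ y : Fin (ν + 1) → K, eval y (aeval G g) = eval (iter F y p) g := by
    intro y
    have h2 := comp_aeval_apply G (aeval y) g
    simp only [aeval_eq_eval] at h2
    rw [hGe] at h2
    exact h2
  have hfx : ∀ᶠ n in (𝒰 : Filter ℕ), eval (iter F x n) (aeval G g) ≠ 0 := by
    filter_upwards [hgf] with n hn
    rw [hfe, ← Pool.Agent.Helper36.iter_add, add_comm p n]
    exact hn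
  have he : 1 ≤ e := by
    by_contra h0
    have h1 : e = 0 := by omega
    subst h1
    rw [← totalDegree_zero_iff_isHomogeneous, totalDegree_eq_zero_iff_eq_C] at hg
    obtain ⟨n, hn1, hn2⟩ := (hgx.and hfx).exists
    rw [hg, eval_C] at hn1
    apply hn2
    rw [hfe, hg, hn1, map_zero, map_zero]
  have hcf : OnCF 𝒰 fun n => iter F x n := by
    have h1 := onCF_shift (L := ℂ) (by omega : 1 ≤ d) hhom hnz h𝒰 hne hcur 0
    exact h1
  -- the bad places of the discs
  have hJ : (jf F).IsHomogeneous ((ν + 1) * (d - 1)) := Pool.Agent.Helper30.TKN.jf_hom hhom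
  obtain ⟨R', hinv', hR'⟩ := itf_inv (F := F) hinv p
  have hloc : ∀ i, ∃ B : Set (AbsoluteValue K ℝ), B.Finite ∧
      ∀ v ∈ nonarchAbsVal (K := K), v ∉ B → σ^[p] i = i →
        (∃ k < p, eval (c (σ^[k] i)) (jf F) = 0) → ∃ i₀, c i i₀ ≠ 0 ∧
        (∀ l, v (nz i₀ (c i) l) ≤ 1) ∧
        ∀ (y : ℕ → Fin (ν + 1) → K) (ρ : ℝ), IsNonarchimedean v → ρ < 1 → (∀ k, y k i₀ = 1) →
        (∀ k j, v (y k j) ≤ 1) → (∀ k j, v (y k j - nz i₀ (c i) j) ≤ ρ) →
        (∀ k, y (k + 1) = gam i₀ G (y k)) → eval (y 0) P ≠ 0 →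
        (∀ A ∈ (𝒰 : Filter ℕ), ∀ k₀ : ℕ, ∃ k ≥ k₀, ∃ n ∈ A, iter F x n i₀ ≠ 0 ∧
          y k = nz i₀ (iter F x n)) → False := by
    intro i
    by_cases hi : σ^[p] i = i
    swap
    · exact ⟨∅, Set.finite_empty, fun v _ _ h => absurd h hi⟩
    by_cases hk : ∃ k < p, eval (c (σ^[k] i)) (jf F) = 0
    swap
    · exact ⟨∅, Set.finite_empty, fun v _ _ _ h => absurd h hk⟩
    obtain ⟨i₀, hi₀, β, hβ⟩ := hnil i p hp1 hi hk
    obtain ⟨u, hu, hiter⟩ := next_iter hhom hc i p
    rw [hi] at hiter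
    have hz1 : nz i₀ (c i) i₀ = 1 := nz_self hi₀
    have hGz : ∀ j, eval (nz i₀ (c i)) (G j) =
        (u * (c i i₀)⁻¹ ^ (d ^ p) * c i i₀) * nz i₀ (c i) j := by
      intro j
      rw [eval_nz (c i) (hG j)]
      have h1 : eval (c i) (G j) = u * c i j := by
        have h2 := congrFun (hGe (c i)) j
        rw [hiter] at h2
        exact h2
      rw [h1]
      unfold nz
      field_simp
    have hc0 : u * (c i i₀)⁻¹ ^ (d ^ p) * c i i₀ ≠ 0 :=
      mul_ne_zero (mul_ne_zero hu (pow_ne_zero _ (inv_ne_zero hi₀))) hi₀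
    have hP0 : eval (nz i₀ (c i)) P = 0 := by
      rw [eval_nz (c i) hP, hc.onP, mul_zero]
    have hRk : ∀ k < p, eval (iter F (nz i₀ (c i)) k) R ≠ 0 := by
      intro k _
      obtain ⟨w, hw, hiterk⟩ := next_iter hhom hc i k
      have h1 : iter F (nz i₀ (c i)) k = fun j => ((c i i₀)⁻¹ ^ (d ^ k) * w) * c (σ^[k] i) j := by
        funext j
        have h2 := eval_nz (i₀ := i₀) (c i) (itf_hom hhom k j)
        rw [itf_eval, itf_eval, hiterk] at h2
        rw [h2]
        ring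
      rw [h1, eval_scale hR]
      refine mul_ne_zero (pow_ne_zero _ (mul_ne_zero (pow_ne_zero _ (inv_ne_zero hi₀)) hw)) ?_
      refine hc.Rne _ ⟨p, hp1, ?_⟩
      rw [← Function.iterate_add_apply, add_comm, Function.iterate_add_apply, hi]
    have hT : Trans i₀ (nz i₀ (c i)) G P (G i₀ ^ δ) R' :=
      trans_of_inv (by rw [hGz, hz1, mul_one]; exact hc0) hP hP0 hinv' (hR' _ hRk)
    obtain ⟨B, hB, hBl⟩ := exists_localB hcf hz1 hD hG hc0 hGz hδ hP hT hβ he hg hgx hfx
    obtain ⟨B', hB', hBg⟩ := exists_good (K := K)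
      (Set.range fun l => (C (nz i₀ (c i) l) : MvPolynomial (Fin (ν + 1)) K))
      (Set.finite_range _) ∅ Set.finite_empty (by simp)
    refine ⟨B ∪ B', hB.union hB', fun v hv hvB _ _ => ⟨i₀, hi₀, fun l => ?_, ?_⟩⟩
    · rw [Set.mem_union, not_or] at hvB
      have h1 := (hBg v hv hvB.2).1 _ ⟨l, rfl⟩ 0
      rwa [coeff_C, if_pos rfl] at h1
    · rw [Set.mem_union, not_or] at hvB
      exact hBl v hv hvB.1
  choose Bl hBl hloc using hloc
  obtain ⟨B₁, hB₁, hgood⟩ := Pool.Agent.Helper72.PN.exists_bad (L := ℂ) hhom hnz R 0 0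
  obtain ⟨B₂, hB₂, hcv⟩ := exists_critV (L := ℂ) hJ hP hR hc
  have hB : (B₁ ∪ B₂ ∪ ⋃ i, Bl i).Finite := (hB₁.union hB₂).union (Set.finite_iUnion hBl)
  -- hitting
  have hr1 : 1 ≤ r := by
    have h1 : 2 * δ ≤ d * δ := Nat.mul_le_mul_right δ hd
    omega
  obtain ⟨m, v, hv, hvB, hsm⟩ := exists_hit (L := ℂ) (by omega) hhom hnz hr1 hR (k := s + 1)
    (fun T hT y hy => crit_count hhom hnz hR hinv hc T hT y fun j hj => by
      have h1 := hy j hj
      have h2 : ∀ j, iter (fun i => map (algebraMap K ℂ) (F i)) y j = iter F y j := by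
        intro j
        induction j with
        | zero => rfl
        | succ j ih =>
          rw [Pool.Agent.Helper36.iter_succ, Pool.Agent.Helper36.iter_succ, ih]
          funext i
          exact aeval_map_algebraMap ℂ _ _
      rwa [h2] at h1)
    hB (exists_place hB) hne (tendsto_height hF hx hpre)
  rw [Set.mem_union, Set.mem_union, not_or, not_or] at hvB
  obtain ⟨⟨hv1, hv2⟩, hv3⟩ := hvB
  have hgv := hgood v hv hv1
  have hGF : GoodF v F d := ⟨hgv.na, hgv.F_int, hgv.F_nm⟩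
  have hCV := hcv v hv hv2
  have hna := hGF.na
  have h0 : Sm v P δ (iter F x (m + 1)) := by
    rw [Pool.Agent.Helper36.iter_succ]
    have hX := nm_pos v (hne m)
    unfold Sm at hsm ⊢
    have h1 : eval (step F (iter F x m)) P = eval (iter F x m) P * eval (iter F x m) R := by
      have h2 := ChainM_eval (F := F) P (iter F x m)
      rw [← h2, hinv, map_mul]
    rw [h1, map_mul, hGF.F_nm, ← pow_mul]
    have h3 := Pool.Agent.Helper72.PN.KeyN_eval_le hna hP hCV.P_int (iter F x m)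
    calc v (eval (iter F x m) P) * v (eval (iter F x m) R)
        ≤ nm v (iter F x m) ^ δ * v (eval (iter F x m) R) :=
          mul_le_mul_of_nonneg_right h3 (v.nonneg _)
      _ < nm v (iter F x m) ^ δ * nm v (iter F x m) ^ r :=
          mul_lt_mul_of_pos_left hsm (pow_pos hX _)
      _ = nm v (iter F x m) ^ (d * δ) := by rw [← pow_add, add_comm δ r, hr]
  rcases hit_cycle (L := ℂ) hhom hv hGF hr hR hinv hc hCV hne hcr h0 with h1 | h1
  · exact hdml h1
  obtain ⟨j, i, hcong, hperi, hjfi⟩ := h1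
  have hσp : σ^[p] i = i := hper i hperi
  -- the class of the ultrafilter
  obtain ⟨q, hqp, hq⟩ : ∃ q < p, ∀ᶠ n in (𝒰 : Filter ℕ), (n - j) % p = q := by
    by_contra hno
    push Not at hno
    have h2 : ∀ᶠ n in (𝒰 : Filter ℕ), ∀ q ∈ Finset.range p, (n - j) % p ≠ q := by
      rw [eventually_all_finset]
      intro q hq
      exact hno q (Finset.mem_range.1 hq)
    obtain ⟨n, hn⟩ := h2.exists
    exact hn _ (Finset.mem_range.2 (Nat.mod_lt _ (by omega))) rfl
  -- congruences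
  have hcn : ∀ i n, iter F (c i) n ≠ 0 := by
    intro i n
    obtain ⟨u, hu, h⟩ := next_iter hhom hc i n
    rw [h]
    intro h1
    apply hc.ne (σ^[n] i)
    funext k
    have h2 := congrFun h1 k
    exact (mul_eq_zero.1 h2).resolve_left hu
  have hcg : ∀ n, Cong v (iter F x (j + n)) (c (σ^[n] i)) := by
    intro n
    have h1 : Cong v (iter F x (j + n)) (iter F (c i) n) := by
      induction n with
      | zero => exact hcong
      | succ n ih =>
        have h2 := Cong.step hhom hGF (hne _) (hcn i n) ih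
        rw [← Pool.Agent.Helper36.iter_succ, ← Pool.Agent.Helper36.iter_succ] at h2
        exact h2
    obtain ⟨u, hu, h⟩ := next_iter hhom hc i n
    rwa [h, cong_smul hu] at h1
  set i' := σ^[q] i with hi'
  have hi'p : σ^[p] i' = i' := by
    rw [hi', ← Function.iterate_add_apply, add_comm, Function.iterate_add_apply, hσp]
  have hcyc : ∃ k < p, eval (c (σ^[k] i')) (jf F) = 0 := by
    rcases Nat.eq_zero_or_pos q with h1 | h1
    · refine ⟨0, by omega, ?_⟩
      rw [hi', h1]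
      exact hjfi
    · refine ⟨p - q, by omega, ?_⟩
      rw [hi', ← Function.iterate_add_apply, Nat.sub_add_cancel hqp.le, hσp]
      exact hjfi
  have hσk : ∀ k, σ^[q + p * k] i = i' := by
    intro k
    rw [Function.iterate_add_apply, Function.iterate_mul]
    congr 1
    exact Function.iterate_fixed hσp k
  have hcgk : ∀ k, Cong v (iter F x (j + q + p * k)) (c i') := by
    intro k
    have h1 := hcg (q + p * k)
    rwa [hσk, ← add_assoc] at h1
  obtain ⟨i₀, hi₀, hzle, hF'⟩ := hloc i' v hv (fun h => hv3 (Set.mem_iUnion.2 ⟨i', h⟩)) hi'p hcyc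
  obtain ⟨ρ, hρ, hρv⟩ := exists_rho hv
  have hci₀ : v (c i' i₀) = nm v (c i') := by
    refine le_antisymm (le_nm v _ _) (nm_le (v.nonneg _) fun l => ?_)
    have h1 := hzle l
    unfold nz at h1
    rw [map_div₀, div_le_one (v.pos hi₀)] at h1
    exact h1
  have hxi₀ : ∀ k, v (iter F x (j + q + p * k) i₀) = nm v (iter F x (j + q + p * k)) := fun k =>
    CongL_coord hna (hc.ne i') (hne _) (hcgk k).symm hci₀
  have hxne : ∀ k, iter F x (j + q + p * k) i₀ ≠ 0 := by
    intro k h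
    have h1 := hxi₀ k
    rw [h, map_zero] at h1
    exact (nm_pos v (hne _)).ne h1
  refine hF' (fun k => nz i₀ (iter F x (j + q + p * k))) ρ hna hρ (fun k => nz_self (hxne k))
    (fun k l => ?_) (fun k l => hρv _ ?_) (fun k => ?_) ?_ ?_
  · change v (iter F x (j + q + p * k) l / iter F x (j + q + p * k) i₀) ≤ 1
    rw [map_div₀, hxi₀]
    exact div_le_one_of_le₀ (le_nm v _ l) (nm_nonneg v _)
  · have h1 : nz i₀ (iter F x (j + q + p * k)) l - nz i₀ (c i') l =
        cr (iter F x (j + q + p * k)) (c i') (l, i₀) /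
          (iter F x (j + q + p * k) i₀ * c i' i₀) := by
      unfold nz cr
      have := hxne k
      field_simp
    rw [h1, map_div₀, map_mul, hxi₀, hci₀,
      div_lt_one (mul_pos (nm_pos v (hne _)) (nm_pos v (hc.ne _)))]
    exact lt_of_le_of_lt (le_nm v _ _) (hcgk k)
  · rw [gam_nz hG _ (hxne k), hGe, ← Pool.Agent.Helper36.iter_add]
    congr 2
    ring
  · rw [eval_nz _ hP]
    exact mul_ne_zero (pow_ne_zero _ (inv_ne_zero (hxne 0))) (hPx _)
  · intro A hA k₀
    have h1 : ∀ᶠ n in (𝒰 : Filter ℕ), j + p * k₀ ≤ n := h𝒰 (eventually_ge_atTop _)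
    obtain ⟨n, ⟨hn1, hn2⟩, hn3⟩ := ((Filter.Eventually.and hA hq).and h1).exists
    refine ⟨(n - j) / p, ?_, n, hn1, ?_, ?_⟩
    · rw [ge_iff_le, Nat.le_div_iff_mul_le (by omega)]
      have : k₀ * p = p * k₀ := mul_comm _ _
      omega
    all_goals
      have h2 : n = j + q + p * ((n - j) / p) := by
        have h3 := Nat.div_add_mod (n - j) p
        omega
    · rw [h2]
      exact hxne _
    · rw [← h2]

end Pool.Agent.Helper41.R1
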