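import Pool.Agent.Helper41.R1.Slow
import Pool.Agent.Helper30.TKN.Defs
import Pool.Agent.Helper67.LGS.Jac
import Pool.Agent.Helper36.Iter

/-!
# Critical periodic points on an invariant curve of the plane

The transversal multiplier is not zero, the Jacobian determinant is: then the differential along
the curve is zero.
-/

set_option autoImplicit false

namespace Pool.Agent.Helper41.R1

open MvPolynomial
open Pool.Agent.Helper36 (step iter)
open Pool.Agent.Helper30.TKN (jf)

variable {K : Type} [Field K]

/-- Two functionals on `K ^ 3` which vanish at two independent vectors are proportional. -/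
theorem Nil_prop {z u w r : Fin 3 → K} {i₀ : Fin 3} (hz : z i₀ = 1)
    (hu : ¬ ∃ t : K, u = t • z) (hw : w ≠ 0) (hwz : ∑ k, w k * z k = 0)
    (hwu : ∑ k, w k * u k = 0) (hrz : ∑ k, r k * z k = 0) (hru : ∑ k, r k * u k = 0) :
    ∃ β : K, ∀ k, r k = β * w k := by
  classical
  rw [Fin.sum_univ_three] at hwz hwu hrz hru
  let n : Fin 3 → K := ![z 1 * u 2 - z 2 * u 1, z 2 * u 0 - z 0 * u 2, z 0 * u 1 - z 1 * u 0]
  have hn0 : n 0 = z 1 * u 2 - z 2 * u 1 := rfl
  have hn1 : n 1 = z 2 * u 0 - z 0 * u 2 := rfl
  have hn2 : n 2 = z 0 * u 1 - z 1 * u 0 := rfl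
  have hne : n ≠ 0 := by
    intro h
    have h0 : z 1 * u 2 - z 2 * u 1 = 0 := by rw [← hn0, h]; rfl
    have h1 : z 2 * u 0 - z 0 * u 2 = 0 := by rw [← hn1, h]; rfl
    have h2 : z 0 * u 1 - z 1 * u 0 = 0 := by rw [← hn2, h]; rfl
    apply hu
    refine ⟨u i₀, ?_⟩
    funext k
    rw [Pi.smul_apply, smul_eq_mul]
    fin_cases i₀
    · have hz' : z 0 = 1 := hz
      fin_cases k
      · change u 0 = u 0 * z 0
        rw [hz', mul_one]
      · change u 1 = u 0 * z 1
        linear_combination h2 - u 1 * hz'
      · change u 2 = u 0 * z 2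
        linear_combination -h1 - u 2 * hz'
    · have hz' : z 1 = 1 := hz
      fin_cases k
      · change u 0 = u 1 * z 0
        linear_combination -h2 - u 0 * hz'
      · change u 1 = u 1 * z 1
        rw [hz', mul_one]
      · change u 2 = u 1 * z 2
        linear_combination h0 - u 2 * hz'
    · have hz' : z 2 = 1 := hz
      fin_cases k
      · change u 0 = u 2 * z 0
        linear_combination h1 - u 0 * hz'
      · change u 1 = u 2 * z 1
        linear_combination -h0 - u 1 * hz'
      · change u 2 = u 2 * z 2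
        rw [hz', mul_one]
  have key : ∀ f : Fin 3 → K, f 0 * z 0 + f 1 * z 1 + f 2 * z 2 = 0 →
      f 0 * u 0 + f 1 * u 1 + f 2 * u 2 = 0 → ∀ a b, f a * n b = f b * n a := by
    intro f hfz hfu
    have e01 : f 0 * n 1 = f 1 * n 0 := by
      rw [hn0, hn1]
      linear_combination z 2 * hfu - u 2 * hfz
    have e12 : f 1 * n 2 = f 2 * n 1 := by
      rw [hn1, hn2]
      linear_combination z 0 * hfu - u 0 * hfz
    have e20 : f 2 * n 0 = f 0 * n 2 := by
      rw [hn0, hn2]
      linear_combination z 1 * hfu - u 1 * hfz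
    intro a b
    fin_cases a <;> fin_cases b
    · rfl
    · exact e01
    · exact e20.symm
    · exact e01.symm
    · rfl
    · exact e12
    · exact e20
    · exact e12.symm
    · rfl
  obtain ⟨j, hj⟩ : ∃ j, n j ≠ 0 := by
    by_contra hcon
    push Not at hcon
    exact hne (funext hcon)
  have hw' := key w hwz hwu
  have hr' := key r hrz hru
  have hwj : w j ≠ 0 := by
    intro h
    apply hw
    funext k
    have h1 := hw' k j
    rw [h, zero_mul] at h1
    exact (mul_eq_zero.1 h1).resolve_right hj
  refine ⟨r j / w j, fun k => ?_⟩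
  rw [div_mul_eq_mul_div, eq_div_iff hwj]
  have h1 := hw' k j
  have h2 := hr' k j
  refine mul_right_cancel₀ hj ?_
  linear_combination w j * h2 - r j * h1

theorem exists_beta [CharZero K] {z : Fin 3 → K} {i₀ : Fin 3} (hz : z i₀ = 1)
    {G : Fin 3 → MvPolynomial (Fin 3) K} {e : ℕ} (he : 1 ≤ e) (hG : ∀ i, (G i).IsHomogeneous e)
    {c : K} (hc : c ≠ 0) (hGz : ∀ i, eval z (G i) = c * z i) {P R : MvPolynomial (Fin 3) K}
    {δ : ℕ} (hP : P.IsHomogeneous δ) (hP0 : eval z P = 0)
    (hdP : ∃ k, eval z (pderiv k P) ≠ 0) (hinv : aeval G P = P * R) (hR : eval z R ≠ 0)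
    (hJ : eval z (jf G) = 0) :
    ∃ β : Fin 3 → K, ∀ i k, eval z (pderiv k (G i)) - z i * eval z (pderiv k (G i₀)) =
      β i * eval z (pderiv k P) := by
  classical
  set A : Matrix (Fin 3) (Fin 3) K := Matrix.of fun i k => eval z (pderiv k (G i)) with hA
  set w : Fin 3 → K := fun k => eval z (pderiv k P) with hw
  have hw0 : w ≠ 0 := by
    obtain ⟨k, hk⟩ := hdP
    exact fun h => hk (congrFun h k)
  have hdet : A.det = 0 := by
    have h1 : eval z (jf G) = A.det := by
      unfold jf
      rw [RingHom.map_det]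
      rfl
    rw [← h1, hJ]
  obtain ⟨u, hu0, hAu⟩ := Matrix.exists_mulVec_eq_zero_iff.2 hdet
  have hAu' : ∀ i, ∑ k, A i k * u k = 0 := fun i => congrFun hAu i
  -- Euler
  have hAz : ∀ i, ∑ k, A i k * z k = e * (c * z i) := by
    intro i
    have h1 := congrArg (eval z) (hG i).sum_X_mul_pderiv
    simp only [map_sum, map_mul, eval_X, nsmul_eq_mul, map_natCast, hGz] at h1
    rw [← h1]
    exact Finset.sum_congr rfl fun k _ => mul_comm _ _
  have hwz : ∑ k, w k * z k = 0 := by
    have h1 := congrArg (eval z) hP.sum_X_mul_pderiv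
    simp only [map_sum, map_mul, eval_X, nsmul_eq_mul, map_natCast, hP0, mul_zero] at h1
    rw [← h1]
    exact Finset.sum_congr rfl fun k _ => mul_comm _ _
  -- the chain rule
  have hchain : ∀ k, c ^ (δ - 1) * ∑ i, w i * A i k = w k * eval z R := by
    intro k
    have h1 := congrArg (fun p => eval z (pderiv k p)) hinv
    rw [Pool.Agent.Helper67.LGS.pderiv_aeval, map_sum, Derivation.leibniz] at h1
    simp only [smul_eq_mul, map_add, map_mul, hP0, zero_mul, zero_add] at h1
    have h2 : ∀ i, eval z (aeval G (pderiv i P)) = c ^ (δ - 1) * w i := by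
      intro i
      have h3 : eval z (aeval G (pderiv i P)) = eval (fun j => c * z j) (pderiv i P) := by
        have h4 := congrArg (fun φ => φ (aeval G (pderiv i P))) (coe_aeval_eq_eval z)
        have h5 := congrArg (fun φ => φ (pderiv i P)) (coe_aeval_eq_eval (fun j => c * z j))
        refine h4.symm.trans (Eq.trans ?_ h5)
        change aeval z (aeval G (pderiv i P)) = aeval (fun j => c * z j) (pderiv i P)
        rw [comp_aeval_apply]
        congr 2
        funext j
        rw [← hGz j]
        exact congrArg (fun φ => φ (G j)) (coe_aeval_eq_eval z)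
      rw [h3]
      have h4 := Pool.Agent.Helper36.aeval_smul_homogeneous (hP.pderiv (i := i)) c z
      have h5 := congrArg (fun φ => φ (pderiv i P)) (coe_aeval_eq_eval (fun j => c * z j))
      have h6 := congrArg (fun φ => φ (pderiv i P)) (coe_aeval_eq_eval z)
      refine h5.symm.trans (Eq.trans h4 ?_)
      exact congrArg (fun t => c ^ (δ - 1) * t) h6
    simp only [h2] at h1
    rw [Finset.mul_sum, mul_comm (w k), ← h1]
    exact Finset.sum_congr rfl fun i _ => by
      rw [hA, Matrix.of_apply]
      ring
  have hwu : ∑ k, w k * u k = 0 := by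
    have h1 : (∑ k, w k * u k) * eval z R = 0 := by
      calc (∑ k, w k * u k) * eval z R = ∑ k, (w k * eval z R) * u k := by
            rw [Finset.sum_mul]
            exact Finset.sum_congr rfl fun k _ => by ring
        _ = ∑ k, ∑ i, c ^ (δ - 1) * w i * (A i k * u k) := by
            refine Finset.sum_congr rfl fun k _ => ?_
            rw [← hchain, Finset.mul_sum, Finset.sum_mul]
            exact Finset.sum_congr rfl fun i _ => by ring
        _ = ∑ i, c ^ (δ - 1) * w i * ∑ k, A i k * u k := by
            rw [Finset.sum_comm]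
            exact Finset.sum_congr rfl fun i _ => by rw [Finset.mul_sum]
        _ = 0 := by
            refine Finset.sum_eq_zero fun i _ => ?_
            rw [hAu' i, mul_zero]
    exact (mul_eq_zero.1 h1).resolve_right hR
  have hunz : ¬ ∃ t : K, u = t • z := by
    rintro ⟨t, rfl⟩
    have h1 := hAu' i₀
    have h2 : ∑ k, A i₀ k * (t • z) k = t * (e * (c * z i₀)) := by
      rw [← hAz, Finset.mul_sum]
      refine Finset.sum_congr rfl fun k _ => ?_
      rw [Pi.smul_apply, smul_eq_mul]
      ring
    rw [h2, hz, mul_one] at h1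
    have he0 : (e : K) ≠ 0 := by
      rw [Nat.cast_ne_zero]
      omega
    have ht : t = 0 := by
      rcases mul_eq_zero.1 h1 with h | h
      · exact h
      · exact absurd h (mul_ne_zero he0 hc)
    apply hu0
    rw [ht, zero_smul]
  have hex : ∀ i, ∃ β : K, ∀ k, A i k - z i * A i₀ k = β * w k := by
    intro i
    refine Nil_prop hz hunz hw0 hwz hwu ?_ ?_
    · have h1 : ∑ k, (A i k - z i * A i₀ k) * z k =
          ∑ k, A i k * z k - z i * ∑ k, A i₀ k * z k := by
        rw [Finset.mul_sum, ← Finset.sum_sub_distrib]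
        exact Finset.sum_congr rfl fun k _ => by ring
      rw [h1, hAz, hAz, hz]
      ring
    · have h1 : ∑ k, (A i k - z i * A i₀ k) * u k =
          ∑ k, A i k * u k - z i * ∑ k, A i₀ k * u k := by
        rw [Finset.mul_sum, ← Finset.sum_sub_distrib]
        exact Finset.sum_congr rfl fun k _ => by ring
      rw [h1, hAu', hAu', mul_zero, sub_zero]
  choose β hβ using hex
  exact ⟨β, hβ⟩

end Pool.Agent.Helper41.R1
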