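import Pool.Agent.Helper72.TH.MainA
import Pool.Agent.Helper72.TH.Desc
import Pool.Agent.Helper38.TQ.CurveSet

/-!
# From ultrafilters to progressions

If the closure of the orbit along every ultrafilter, when it is a curve, is invariant under an
iterate, then the return sets of curves are finite unions of progressions.
-/

set_option autoImplicit false

namespace Pool.Agent.Helper41.R1

open MvPolynomial Filter Topology
open Pool.Agent.Helper36 (step iter)
open Pool.Agent.Helper38.TQ (IsEndo PEq CurveSet)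
open Pool.Agent.Helper72.TH (OnC)

variable {ν : ℕ}

/-- A set of numbers such that every ultrafilter on it contains a progression in it is a finite
union of progressions. -/
theorem prog_of_ultra {E : Set ℕ}
    (h : ∀ 𝒰 : Ultrafilter ℕ, (𝒰 : Filter ℕ) ≤ atTop → E ∈ (𝒰 : Filter ℕ) →
      ∃ p m : ℕ, 1 ≤ p ∧ (∀ k, m + p * k ∈ E) ∧ {n | ∃ k, n = m + p * k} ∈ (𝒰 : Filter ℕ)) :
    ∃ T : Finset (ℕ × ℕ), E = {n : ℕ | ∃ q ∈ T, ∃ k : ℕ, n = q.1 * k + q.2} := by
  classical
  -- the union of the progressions of a finite set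
  let U : Finset (ℕ × ℕ) → Set ℕ := fun t => {n | ∃ q ∈ t, ∃ k : ℕ, n = q.2 + q.1 * k}
  have hUmono : ∀ t t' : Finset (ℕ × ℕ), t ⊆ t' → U t ⊆ U t' := by
    rintro t t' htt' n ⟨q, hq, k, hk⟩
    exact ⟨q, htt' hq, k, hk⟩
  let ok : Finset (ℕ × ℕ) → Prop := fun t => ∀ q ∈ t, ∀ k : ℕ, q.2 + q.1 * k ∈ E
  by_cases hfin : ∃ t, ok t ∧ (E \ U t).Finite
  · obtain ⟨t, ht, hf⟩ := hfin
    refine ⟨t ∪ hf.toFinset.image fun n => (0, n), ?_⟩
    ext n
    simp only [Set.mem_ofPred_eq, Finset.mem_union, Finset.mem_image, Set.Finite.mem_toFinset]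
    constructor
    · intro hn
      by_cases hU : n ∈ U t
      · obtain ⟨q, hq, k, hk⟩ := hU
        exact ⟨q, Or.inl hq, k, by rw [hk, add_comm]⟩
      · exact ⟨(0, n), Or.inr ⟨n, ⟨hn, hU⟩, rfl⟩, 0, by simp⟩
    · rintro ⟨q, hq | ⟨n', hn', rfl⟩, k, rfl⟩
      · rw [add_comm]
        exact ht q hq k
      · rw [zero_mul, zero_add]
        exact hn'.1
  · exfalso
    push Not at hfin
    let f : Filter ℕ :=
      { sets := {s | ∃ t, ok t ∧ ((E \ s) \ U t).Finite}
        univ_sets := ⟨∅, fun q hq => absurd hq (Finset.notMem_empty q), by simp⟩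
        sets_of_superset := by
          rintro s s' ⟨t, ht, hf⟩ hss'
          exact ⟨t, ht, hf.subset fun n hn => ⟨⟨hn.1.1, fun hs => hn.1.2 (hss' hs)⟩, hn.2⟩⟩
        inter_sets := by
          rintro s s' ⟨t, ht, hf⟩ ⟨t', ht', hf'⟩
          refine ⟨t ∪ t', fun q hq => ?_, (hf.union hf').subset fun n hn => ?_⟩
          · rcases Finset.mem_union.1 hq with hq | hq
            · exact ht q hq
            · exact ht' q hq
          · by_cases hs : n ∈ s
            · exact Or.inr ⟨⟨hn.1.1, fun hs' => hn.1.2 ⟨hs, hs'⟩⟩,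
                fun h => hn.2 (hUmono _ _ Finset.subset_union_right h)⟩
            · exact Or.inl ⟨⟨hn.1.1, hs⟩,
                fun h => hn.2 (hUmono _ _ Finset.subset_union_left h)⟩ }
    have hne : f.NeBot := by
      refine ⟨fun hbot => ?_⟩
      have h1 : (∅ : Set ℕ) ∈ f := by rw [hbot]; exact mem_bot
      obtain ⟨t, ht, hf⟩ := h1
      rw [Set.sdiff_empty] at hf
      exact hfin t ht hf
    have hle := Ultrafilter.of_le f
    have hat : f ≤ atTop := by
      rw [Filter.le_def]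
      intro s hs
      obtain ⟨a, ha⟩ := mem_atTop_sets.1 hs
      refine ⟨∅, fun q hq => absurd hq (Finset.notMem_empty q),
        (Set.finite_lt_nat a).subset fun n hn => ?_⟩
      by_contra hna
      exact hn.1.2 (ha n (not_lt.1 hna))
    have hE : E ∈ f := ⟨∅, fun q hq => absurd hq (Finset.notMem_empty q), by simp⟩
    obtain ⟨p, m, -, h2, h3⟩ := h (Ultrafilter.of f) (hle.trans hat) (hle hE)
    have h4 : {n | ∃ k, n = m + p * k}ᶜ ∈ f := by
      refine ⟨{(p, m)}, fun q hq k => ?_, ?_⟩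
      · rw [Finset.mem_singleton.1 hq]
        exact h2 k
      · convert Set.finite_empty
        ext n
        simp only [Set.mem_sdiff, Set.mem_compl_iff, Set.mem_ofPred_eq, not_not,
          Set.mem_empty_iff_false, iff_false, not_and, U, Finset.mem_singleton, exists_eq_left]
        exact fun h5 => h5.2
    exact (Ultrafilter.compl_mem_iff_notMem.1 (hle h4)) h3

theorem Ultra_comp {K : Type} [Field K] {F : Fin (ν + 1) → MvPolynomial (Fin (ν + 1)) K}
    (p : ℕ) (x : Fin (ν + 1) → K) (g : MvPolynomial (Fin (ν + 1)) K) :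
    eval x (aeval (iter F (X : Fin (ν + 1) → MvPolynomial (Fin (ν + 1)) K) p) g) =
      eval (iter F x p) g := by
  have h1 := congrArg (fun φ => φ (aeval
    (iter F (X : Fin (ν + 1) → MvPolynomial (Fin (ν + 1)) K) p) g)) (coe_aeval_eq_eval x)
  have h2 := congrArg (fun φ => φ g) (coe_aeval_eq_eval (iter F x p))
  refine h1.symm.trans (Eq.trans ?_ h2)
  change aeval x (aeval _ g) = aeval _ g
  have h3 := Pool.Agent.Helper36.iter_map F
    (aeval x : MvPolynomial (Fin (ν + 1)) K →ₐ[K] K) X p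
  have h4 : (fun i => aeval x (X i : MvPolynomial (Fin (ν + 1)) K)) = x := by
    funext i
    rw [aeval_X]
  rw [h4] at h3
  rw [h3, comp_aeval_apply]

theorem Ultra_hom {K : Type} [Field K] {F : Fin (ν + 1) → MvPolynomial (Fin (ν + 1)) K} {d : ℕ}
    (hF : ∀ i, (F i).IsHomogeneous d) (s : ℕ) (i : Fin (ν + 1)) :
    (iter F (X : Fin (ν + 1) → MvPolynomial (Fin (ν + 1)) K) s i).IsHomogeneous (d ^ s) := by
  induction s generalizing i with
  | zero => exact isHomogeneous_X K i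
  | succ s ih =>
    rw [Pool.Agent.Helper36.iter_succ, pow_succ]
    exact (hF i).aeval _ ih

theorem dml_of_ultra {K : Type} [Field K] [NumberField K] [Algebra K ℂ] {d : ℕ}
    {F : Fin (ν + 1) → MvPolynomial (Fin (ν + 1)) K}
    (hF : IsEndo d fun i => map (algebraMap K ℂ) (F i)) {x : Fin (ν + 1) → K} (hx : x ≠ 0)
    (h : ∀ 𝒰 : Ultrafilter ℕ, (𝒰 : Filter ℕ) ≤ atTop → OnC 𝒰 (fun n => iter F x n) →
      ∃ p : ℕ, 1 ≤ p ∧ ∀ (g : MvPolynomial (Fin (ν + 1)) K) (e : ℕ), g.IsHomogeneous e →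
        (∀ᶠ n in (𝒰 : Filter ℕ), eval (iter F x n) g = 0) →
        ∀ᶠ n in (𝒰 : Filter ℕ), eval (iter F x (n + p)) g = 0)
    {V : Set (MvPolynomial (Fin (ν + 1)) ℂ)} (hV : ∀ g ∈ V, ∃ e, g.IsHomogeneous e)
    (hcur : CurveSet V) :
    ∃ T : Finset (ℕ × ℕ),
      {n : ℕ | ∀ g ∈ V, eval (fun i => algebraMap K ℂ (iter F x n i)) g = 0} =
        {n : ℕ | ∃ q ∈ T, ∃ k : ℕ, n = q.1 * k + q.2} := by
  classical
  refine prog_of_ultra fun 𝒰 h𝒰 hE => ?_
  have hhom : ∀ i, (F i).IsHomogeneous d := fun i => Pool.Agent.Helper72.PN.MainN_hom hF i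
  have hcv : OnC 𝒰 (fun n => iter F x n) := by
    intro a
    obtain ⟨P, e, hP, hPh, hPU⟩ := hcur K (fun m => iter F x m) 𝒰 hE a
    exact ⟨P, e, hPh, hP, hPU⟩
  obtain ⟨p, hp, hinv⟩ := h 𝒰 h𝒰 hcv
  -- the forms that vanish along the ultrafilter
  set T : Set (MvPolynomial (Fin (ν + 1)) K) :=
    {g | (∃ e, g.IsHomogeneous e) ∧ ∀ᶠ n in (𝒰 : Filter ℕ), eval (iter F x n) g = 0} with hT
  have hall : ∀ᶠ n in (𝒰 : Filter ℕ), ∀ g ∈ T, eval (iter F x n) g = 0 := by
    have hfg : (Ideal.span T).FG := IsNoetherian.noetherian _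
    obtain ⟨t, ht, hspan⟩ := Submodule.fg_span_iff_fg_span_finset_subset _ |>.1 hfg
    have h1 : ∀ᶠ n in (𝒰 : Filter ℕ), ∀ g ∈ t, eval (iter F x n) g = 0 := by
      rw [eventually_all_finset]
      exact fun g hg => (ht hg).2
    filter_upwards [h1] with n hn g hg
    have h2 : g ∈ Ideal.span T := Ideal.subset_span hg
    have h3 : Ideal.span T = Ideal.span (t : Set (MvPolynomial (Fin (ν + 1)) K)) := hspan
    rw [h3] at h2
    have h4 : Ideal.span (t : Set (MvPolynomial (Fin (ν + 1)) K)) ≤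
        RingHom.ker (eval (iter F x n)) :=
      Ideal.span_le.2 fun Q hQ => RingHom.mem_ker.2 (hn Q hQ)
    exact RingHom.mem_ker.1 (h4 h2)
  have hstep : ∀ y : Fin (ν + 1) → K, (∀ g ∈ T, eval y g = 0) →
      ∀ g ∈ T, eval (iter F y p) g = 0 := by
    rintro y hy g ⟨⟨e, he⟩, hg⟩
    rw [← Ultra_comp]
    refine hy _ ⟨⟨_, he.aeval _ fun i => Ultra_hom hhom p i⟩, ?_⟩
    filter_upwards [hinv g e he hg] with n hn
    rw [Ultra_comp, ← Pool.Agent.Helper36.iter_add, add_comm p n]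
    exact hn
  -- the class modulo `p`
  obtain ⟨c, -, hc⟩ : ∃ c ∈ (Set.Iio p : Set ℕ), {n | n % p = c} ∈ (𝒰 : Filter ℕ) := by
    have h1 : (⋃ c ∈ (Set.Iio p : Set ℕ), {n | n % p = c}) ∈ 𝒰 := by
      refine Filter.mem_of_superset Filter.univ_mem fun n _ => ?_
      rw [Set.mem_iUnion₂]
      exact ⟨n % p, Nat.mod_lt _ hp, rfl⟩
    exact (Ultrafilter.finite_biUnion_mem_iff (Set.finite_Iio p)).1 h1
  obtain ⟨n₁, h1, h2⟩ := (hall.and hc).exists
  have h3 : ∀ k, ∀ g ∈ T, eval (iter F x (n₁ + p * k)) g = 0 := by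
    intro k
    induction k with
    | zero => exact h1
    | succ k ih =>
      intro g hg
      have h4 := hstep _ ih g hg
      rwa [← Pool.Agent.Helper36.iter_add, show p + (n₁ + p * k) = n₁ + p * (k + 1) by ring] at h4
  refine ⟨p, n₁, hp, fun k G hG => ?_, ?_⟩
  · obtain ⟨e, he⟩ := hV G hG
    refine Pool.Agent.Helper72.TH.van_descend (K := K) (x := fun n => iter F x n) (𝒰 := 𝒰)
      (fun g e he hg => ?_) he ?_
    · have h5 := h3 k g ⟨⟨e, he⟩, hg⟩
      have h6 : aeval (fun i => algebraMap K ℂ (iter F x (n₁ + p * k) i)) g =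
          algebraMap K ℂ (aeval (iter F x (n₁ + p * k)) g) :=
        aeval_algebraMap_apply ℂ (iter F x (n₁ + p * k)) g
      have h7 : aeval (iter F x (n₁ + p * k)) g = eval (iter F x (n₁ + p * k)) g :=
        congrArg (fun ψ => ψ g) (coe_aeval_eq_eval _)
      rw [h6, h7, h5, map_zero]
    · filter_upwards [hE] with n hn
      exact hn G hG
  · filter_upwards [hc, h𝒰 (eventually_ge_atTop n₁)] with n hn hn1
    have hn1' : n₁ ≤ n := hn1
    have h5 : n % p = n₁ % p := by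
      have e1 : n % p = c := hn
      have e2 : n₁ % p = c := h2
      rw [e1, e2]
    have h6 : p ∣ n - n₁ := (Nat.modEq_iff_dvd' hn1').1 h5.symm
    obtain ⟨k, hk⟩ := h6
    exact ⟨k, by omega⟩

end Pool.Agent.Helper41.R1
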