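import Pool.Agent.Helper41.R1.Main
import Pool.Agent.Helper41.R1.Ultra
import Pool.Agent.Helper41.R1.Nil
import Pool.Agent.Helper41.R1.Fin
import Pool.Agent.Helper30.TP.LFin

/-!
# The rank one extension for the plane over a number field
-/

set_option autoImplicit false

namespace Pool.Agent.Helper41.R1

open MvPolynomial Filter Topology
open Pool.Agent.Helper36 (step iter)
open Pool.Agent.Helper38.TQ (IsEndo PEq CurveSet)
open Pool.Agent.Helper29.TG
open Pool.Agent.Helper72.TH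
open Pool.Agent.Helper30.TKN (jf)
open Pool.Agent.Helper72.PN (MainN_sets MainN_endo MainN_ne MainN_preper MainN_hom MainN_finite)

/-- In the plane every closed set with a nonzero equation has dimension at most one. -/
theorem curveSet_plane {S : Set (MvPolynomial (Fin (2 + 1)) ℂ)}
    (hS : ∀ g ∈ S, ∃ e, g.IsHomogeneous e) {g : MvPolynomial (Fin (2 + 1)) ℂ} (hg : g ∈ S)
    (hg0 : g ≠ 0) : CurveSet S := by
  refine Pool.Agent.Helper38.TQ.curveSet_of_krull hS ?_
  have h1 := ringKrullDim_quotient_succ_le_of_nonZeroDivisor (mem_nonZeroDivisors_of_ne_zero hg0)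
  rw [MvPolynomial.ringKrullDim_of_isNoetherianRing, ringKrullDim_eq_zero_of_field] at h1
  have h2 : Ideal.span {g} ≤ Ideal.span S := Ideal.span_mono (Set.singleton_subset_iff.2 hg)
  have h3 := ringKrullDim_le_of_surjective (Ideal.Quotient.factor h2)
    (Ideal.Quotient.factor_surjective h2)
  refine h3.trans ?_
  have h4 : ringKrullDim (MvPolynomial (Fin (2 + 1)) ℂ ⧸ Ideal.span {g}) + 1 ≤ 2 + 1 := by
    refine h1.trans (le_of_eq ?_)
    rw [Nat.card_eq_fintype_card, Fintype.card_fin, zero_add]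
    norm_num
  exact (ENat.WithBot.add_le_add_one_right_iff).1 h4

/-- Orbits in an irreducible curve. -/
theorem in_curve {K : Type} [Field K] [NumberField K] [Algebra K ℂ] {d : ℕ}
    {F : Fin 3 → MvPolynomial (Fin 3) K}
    (hF : IsEndo d fun i => map (algebraMap K ℂ) (F i)) {P R : MvPolynomial (Fin 3) K} {δ : ℕ}
    (hP : P.IsHomogeneous δ) (hinv : aeval F P = P * R)
    (hirr : Irreducible (map (algebraMap K ℂ) P)) {x : Fin 3 → K} (hx : x ≠ 0)
    (hpre : ¬ ∃ n m, n < m ∧ PEq (iter F x n) (iter F x m)) {m : ℕ}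
    (hPx : eval (iter F x m) P = 0)
    {V : Set (MvPolynomial (Fin 3) ℂ)} (hV : ∀ g ∈ V, ∃ e, g.IsHomogeneous e) :
    ∃ T : Finset (ℕ × ℕ),
      {n : ℕ | ∀ g ∈ V, eval (fun i => algebraMap K ℂ (iter F x n i)) g = 0} =
        {n : ℕ | ∃ q ∈ T, ∃ k : ℕ, n = q.1 * k + q.2} := by
  classical
  have hne : ∀ n, iter F x n ≠ 0 := fun n => MainN_ne hF hx n
  have hPn : ∀ n, m ≤ n → eval (iter F x n) P = 0 := by
    intro n hn
    induction n, hn using Nat.le_induction with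
    | base => exact hPx
    | succ n _ ih =>
      rw [Pool.Agent.Helper36.iter_succ]
      have h2 := ChainM_eval (F := F) P (iter F x n)
      rw [← h2, hinv, map_mul, ih, zero_mul]
  have hPC : ∀ n, m ≤ n → eval (fun i => algebraMap K ℂ (iter F x n i))
      (map (algebraMap K ℂ) P) = 0 := by
    intro n hn
    rw [← Pool.Agent.Helper38.Sym.map_eval_gen, hPn n hn, map_zero]
  by_cases hall : ∀ g ∈ V, map (algebraMap K ℂ) P ∣ g
  · -- all later points
    refine ⟨(Finset.range m).filter (fun n => ∀ g ∈ V,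
      eval (fun i => algebraMap K ℂ (iter F x n i)) g = 0) |>.image (fun n => (0, n)) |>.cons
        (1, m) (by simp), ?_⟩
    ext n
    simp only [Set.mem_ofPred_eq, Finset.mem_cons, Finset.mem_image, Finset.mem_filter,
      Finset.mem_range]
    constructor
    · intro h
      rcases Nat.lt_or_ge n m with h1 | h1
      · exact ⟨(0, n), Or.inr ⟨n, ⟨h1, h⟩, rfl⟩, 0, by simp⟩
      · exact ⟨(1, m), Or.inl rfl, n - m, by omega⟩
    · rintro ⟨q, hq | ⟨l, ⟨hl, hl'⟩, rfl⟩, k, rfl⟩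
      · subst hq
        intro g hg
        obtain ⟨w, rfl⟩ := hall g hg
        rw [map_mul, hPC _ (by simp), zero_mul]
      · simpa using hl'
  · push Not at hall
    obtain ⟨g, hg, hgd⟩ := hall
    obtain ⟨e, he⟩ := hV g hg
    apply MainN_finite
    have h1 := Pool.Agent.Helper30.TP.finite_common_zeros (hP.map (algebraMap K ℂ)) he hirr hgd
      (fun n : ℕ => (fun i => algebraMap K ℂ (iter F x n i) : Fin 3 → ℂ)) (fun n h => hne n (by
        funext j
        exact (map_eq_zero_iff _ (algebraMap K ℂ).injective).1 (congrFun h j)))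
      (fun i j hij h => by
        have h1 := Pool.Agent.Helper38.TQ.PEq.descend (algebraMap K ℂ) (hne _) (hne _) h
        rcases lt_or_gt_of_ne hij with h2 | h2
        · exact hpre ⟨_, _, h2, h1⟩
        · exact hpre ⟨_, _, h2, h1.symm⟩)
    refine (h1.union (Set.finite_lt_nat m)).subset fun n hn => ?_
    rcases Nat.lt_or_ge n m with h2 | h2
    · exact Or.inr h2
    · exact Or.inl ⟨hPC n h2, hn g hg⟩

theorem peq_of_scale {K : Type} [Field K] {x y : Fin 3 → K} {u : K} (hu : u ≠ 0)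
    (h : y = fun i => u * x i) : PEq x y := ⟨u, hu, h⟩

/-- **The rank one extension for the plane over a number field.** -/
theorem r1_number {K : Type} [Field K] [NumberField K] [Algebra K ℂ] {d : ℕ}
    {F : Fin 3 → MvPolynomial (Fin 3) K}
    (hF : IsEndo d fun i => map (algebraMap K ℂ) (F i)) {P R : MvPolynomial (Fin 3) K}
    {δ r : ℕ} (hδ : 1 ≤ δ) (hr : r + δ = d * δ)
    (hP : P.IsHomogeneous δ) (hR : R.IsHomogeneous r) (hinv : aeval F P = P * R)
    (hirr : Irreducible (map (algebraMap K ℂ) P))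
    {W : Set (Fin 3 → K)} (hW : W.Finite) (hWne : W.Nonempty) (h0 : ∀ w ∈ W, w ≠ 0)
    (hnext : ∀ w ∈ W, ∃ w' ∈ W, PEq (step F w) w') (hWP : ∀ w ∈ W, eval w P = 0)
    (hRW : ∀ w ∈ W, (∃ p, 1 ≤ p ∧ PEq (iter F w p) w) → eval w R ≠ 0)
    (hsm : ∀ w ∈ W, (∃ p, 1 ≤ p ∧ PEq (iter F w p) w ∧ ∃ k < p, eval (iter F w k) (jf F) = 0) →
      ∃ k, eval w (pderiv k P) ≠ 0)
    (hcover : ∀ x : Fin 3 → ℂ, x ≠ 0 → aeval x P = 0 → aeval x (jf F * R) = 0 →
      ∃ w ∈ W, PEq x (fun l => algebraMap K ℂ (w l)))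
    {x : Fin 3 → K} (hx : x ≠ 0)
    {V : Set (MvPolynomial (Fin 3) ℂ)} (hV : ∀ g ∈ V, ∃ e, g.IsHomogeneous e) :
    ∃ T : Finset (ℕ × ℕ),
      {n : ℕ | ∀ g ∈ V, eval (fun i => algebraMap K ℂ (iter F x n i)) g = 0} =
        {n : ℕ | ∃ q ∈ T, ∃ k : ℕ, n = q.1 * k + q.2} := by
  classical
  have hhom : ∀ i, (F i).IsHomogeneous d := fun i => MainN_hom hF i
  have hd : 2 ≤ d := hF.two_le
  by_cases hpre : ∃ n m, n < m ∧ PEq (iter F x n) (iter F x m)
  · obtain ⟨n, m, hnm, hp⟩ := hpre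
    exact MainN_preper hF x hnm hp V hV
  by_cases hPx : ∃ m, eval (iter F x m) P = 0
  · obtain ⟨m, hm⟩ := hPx
    exact in_curve hF hP hinv hirr hx hpre hm hV
  push Not at hPx
  by_cases hV0 : ∀ g ∈ V, g = 0
  · refine ⟨{(1, 0)}, ?_⟩
    ext n
    simp only [Set.mem_ofPred_eq, Finset.mem_singleton]
    constructor
    · intro _
      exact ⟨(1, 0), rfl, n, by simp⟩
    · intro _ g hg
      rw [hV0 g hg, map_zero]
  push Not at hV0
  obtain ⟨g, hg, hg0⟩ := hV0
  have hcur : CurveSet V := curveSet_plane hV hg hg0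
  obtain ⟨s, c, σ, t, hc, hcW⟩ := exists_critD hhom hR hW h0 hnext hWP hRW hcover hWne
  have hnil : ∀ i p, 1 ≤ p → σ^[p] i = i → (∃ k < p, eval (c (σ^[k] i)) (jf F) = 0) →
      NilAt (iter F (X : Fin 3 → MvPolynomial (Fin 3) K) p) P (c i) := by
    intro i p hp hi hk
    obtain ⟨i₀, hi₀⟩ := Function.ne_iff.1 (hc.ne i)
    have hi₀ : c i i₀ ≠ 0 := hi₀
    refine ⟨i₀, hi₀, ?_⟩
    obtain ⟨u, hu, hiter⟩ := next_iter hhom hc i p
    rw [hi] at hiter
    have hz1 : nz i₀ (c i) i₀ = 1 := nz_self hi₀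
    have hGz : ∀ j, eval (nz i₀ (c i)) (iter F (X : Fin 3 → MvPolynomial (Fin 3) K) p j) =
        (u * (c i i₀)⁻¹ ^ (d ^ p) * c i i₀) * nz i₀ (c i) j := by
      intro j
      rw [eval_nz (c i) (itf_hom hhom p j), itf_eval, hiter]
      unfold nz
      field_simp
    have hc0 : u * (c i i₀)⁻¹ ^ (d ^ p) * c i i₀ ≠ 0 :=
      mul_ne_zero (mul_ne_zero hu (pow_ne_zero _ (inv_ne_zero hi₀))) hi₀
    have hP0 : eval (nz i₀ (c i)) P = 0 := by
      rw [eval_nz (c i) hP, hc.onP, mul_zero]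
    have hitk : ∀ k, ∃ w : K, w ≠ 0 ∧ iter F (nz i₀ (c i)) k = fun j => w * c (σ^[k] i) j := by
      intro k
      obtain ⟨w, hw, hiterk⟩ := next_iter hhom hc i k
      refine ⟨(c i i₀)⁻¹ ^ (d ^ k) * w, mul_ne_zero (pow_ne_zero _ (inv_ne_zero hi₀)) hw, ?_⟩
      funext j
      have h2 := eval_nz (i₀ := i₀) (c i) (itf_hom hhom k j)
      rw [itf_eval, itf_eval, hiterk] at h2
      rw [h2]
      ring
    have hJ : (jf F).IsHomogeneous ((2 + 1) * (d - 1)) := Pool.Agent.Helper30.TKN.jf_hom hhom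
    obtain ⟨R', hinv', hR'⟩ := itf_inv (F := F) hinv p
    have hperk : ∀ k, σ^[p] (σ^[k] i) = σ^[k] i := by
      intro k
      rw [← Function.iterate_add_apply, add_comm, Function.iterate_add_apply, hi]
    have hR'0 : eval (nz i₀ (c i)) R' ≠ 0 := by
      refine hR' _ fun k _ => ?_
      obtain ⟨w, hw, h1⟩ := hitk k
      rw [h1, eval_scale hR]
      exact mul_ne_zero (pow_ne_zero _ hw) (hc.Rne _ ⟨p, hp, hperk k⟩)
    refine exists_beta hz1 (e := d ^ p) (Nat.one_le_pow _ _ (by omega)) (itf_hom hhom p) hc0 hGz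
      hP hP0 ?_ hinv' hR'0 ?_
    · obtain ⟨k, hk⟩ := hsm (c i) (hcW i) ⟨p, hp, ⟨u⁻¹, inv_ne_zero hu, by
        rw [hiter]
        funext j
        simp only [Pi.smul_apply, smul_eq_mul]
        rw [inv_mul_cancel_left₀ hu]⟩, by
          obtain ⟨k, hkp, hk⟩ := hk
          obtain ⟨w, hw, h1⟩ := next_iter hhom hc i k
          refine ⟨k, hkp, ?_⟩
          rw [h1, eval_scale hJ, hk, mul_zero]⟩
      refine ⟨k, ?_⟩
      rw [eval_nz (c i) hP.pderiv]
      exact mul_ne_zero (pow_ne_zero _ (inv_ne_zero hi₀)) hk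
    · apply itf_jf
      obtain ⟨k, hkp, hk⟩ := hk
      obtain ⟨w, hw, h1⟩ := hitk k
      refine ⟨k, hkp, ?_⟩
      rw [h1, eval_scale hJ, hk, mul_zero]
  by_cases hdml : Pool.Agent.Helper38.Sym.DMLgen (fun i => map (algebraMap K ℂ) (F i))
      (fun i => algebraMap K ℂ (x i))
  · obtain ⟨T, hT⟩ := hdml V hV
    refine ⟨T, ?_⟩
    rw [← hT]
    have h1 := MainN_sets hF x one_ne_zero V hV
    simp only [one_mul] at h1
    rw [h1]
  · refine dml_of_ultra hF hx (fun 𝒰 h𝒰 hon => ?_) hV hcur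
    exact (r1_main hF hδ hr hP hR hinv hc hnil hx hpre hPx h𝒰 hon).resolve_left hdml

end Pool.Agent.Helper41.R1
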