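import Mathlib

/-!
# Slow forms at a periodic point with one non-zero multiplier

`z` is a fixed point of `G`, the hypersurface `P = 0` is invariant near `z`, the differential of
`G` along it is zero at `z` and the transversal multiplier is not zero. Everything is written on
the affine chart `y i₀ = 1`.
-/

set_option autoImplicit false

namespace Pool.Agent.Helper41.R1

open MvPolynomial

variable {ν : ℕ} {K : Type} [Field K]

/-- The normalised image of a point. -/
noncomputable def gam (i₀ : Fin (ν + 1)) (G : Fin (ν + 1) → MvPolynomial (Fin (ν + 1)) K)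
    (y : Fin (ν + 1) → K) : Fin (ν + 1) → K := fun i => eval y (G i) / eval y (G i₀)

/-- The functions `U`, `P` generate the maximal ideal at `z`. -/
structure Par (i₀ : Fin (ν + 1)) (z : Fin (ν + 1) → K) (P : MvPolynomial (Fin (ν + 1)) K)
    (U : Fin (ν + 1) → MvPolynomial (Fin (ν + 1)) K) : Prop where
  zero : ∀ i, eval z (U i) = 0
  gen : ∀ E : MvPolynomial (Fin (ν + 1)) K, eval z E = 0 →
    ∃ (κ d : MvPolynomial (Fin (ν + 1)) K) (c : Fin (ν + 1) → MvPolynomial (Fin (ν + 1)) K),
      eval z κ ≠ 0 ∧ ∀ y : Fin (ν + 1) → K, y i₀ = 1 →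
        eval y κ * eval y E = ∑ j, eval y (c j) * eval y (U j) + eval y d * eval y P

/-- The functions `U` are contracted by `G` modulo `P ^ M`. -/
structure SlowD (i₀ : Fin (ν + 1)) (z : Fin (ν + 1) → K)
    (G : Fin (ν + 1) → MvPolynomial (Fin (ν + 1)) K) (P : MvPolynomial (Fin (ν + 1)) K)
    (U : Fin (ν + 1) → MvPolynomial (Fin (ν + 1)) K) (M : ℕ) (κ : MvPolynomial (Fin (ν + 1)) K)
    (a : Fin (ν + 1) → Fin (ν + 1) → MvPolynomial (Fin (ν + 1)) K)
    (b : Fin (ν + 1) → MvPolynomial (Fin (ν + 1)) K) : Prop where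
  κ_ne : eval z κ ≠ 0
  a_zero : ∀ i j, eval z (a i j) = 0
  rel : ∀ (i : Fin (ν + 1)) (y : Fin (ν + 1) → K), y i₀ = 1 → eval y (G i₀) ≠ 0 →
    eval y κ * eval (gam i₀ G y) (U i) =
      ∑ j, eval y (a i j) * eval y (U j) + eval y (b i) * eval y P ^ M

/-- The transversal multiplier is not zero. -/
structure Trans (i₀ : Fin (ν + 1)) (z : Fin (ν + 1) → K)
    (G : Fin (ν + 1) → MvPolynomial (Fin (ν + 1)) K) (P κ R : MvPolynomial (Fin (ν + 1)) K) :
    Prop where
  κ_ne : eval z κ ≠ 0
  R_ne : eval z R ≠ 0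
  P_zero : eval z P = 0
  rel : ∀ y : Fin (ν + 1) → K, y i₀ = 1 → eval y (G i₀) ≠ 0 →
    eval y κ * eval (gam i₀ G y) P = eval y R * eval y P

theorem pt_ideal (z : Fin (ν + 1) → K) (E : MvPolynomial (Fin (ν + 1)) K) :
    ∃ a : Fin (ν + 1) → MvPolynomial (Fin (ν + 1)) K,
      E = C (eval z E) + ∑ k, a k * (X k - C (z k)) := by
  classical
  induction E using MvPolynomial.induction_on with
  | C c => exact ⟨0, by simp⟩
  | add p q hp hq =>
    obtain ⟨a, ha⟩ := hp
    obtain ⟨b, hb⟩ := hq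
    refine ⟨a + b, ?_⟩
    conv_lhs => rw [ha, hb]
    simp only [Pi.add_apply, add_mul, Finset.sum_add_distrib, map_add]
    ring
  | mul_X p i hp =>
    obtain ⟨a, ha⟩ := hp
    refine ⟨fun k => a k * X i + if k = i then C (eval z p) else 0, ?_⟩
    conv_lhs => rw [ha]
    have h1 : ∑ k, (a k * X i + if k = i then C (eval z p) else 0) * (X k - C (z k)) =
        (∑ k, a k * (X k - C (z k))) * X i + C (eval z p) * (X i - C (z i)) := by
      simp only [add_mul, Finset.sum_add_distrib]
      congr 1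
      · rw [Finset.sum_mul]
        exact Finset.sum_congr rfl fun k _ => by ring
      · rw [Finset.sum_eq_single i]
        · rw [if_pos rfl]
        · intro k _ hk
          rw [if_neg hk, zero_mul]
        · intro h
          exact absurd (Finset.mem_univ i) h
    rw [h1, map_mul, eval_X, map_mul]
    ring

/-- The coordinate functions generate the maximal ideal. -/
theorem par_coord {i₀ : Fin (ν + 1)} {z : Fin (ν + 1) → K} (hz : z i₀ = 1)
    (P : MvPolynomial (Fin (ν + 1)) K) : Par i₀ z P fun j => X j - C (z j) * X i₀ where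
  zero i := by
    rw [map_sub, map_mul, eval_C, eval_X, eval_X, hz, mul_one, sub_self]
  gen E hE := by
    obtain ⟨a, ha⟩ := pt_ideal z E
    refine ⟨1, 0, a, by simp, fun y hy => ?_⟩
    conv_lhs => rw [ha]
    rw [hE]
    simp [hy]

/-- The base case. -/
theorem slow_base {i₀ : Fin (ν + 1)} {z : Fin (ν + 1) → K} (hz : z i₀ = 1)
    {G : Fin (ν + 1) → MvPolynomial (Fin (ν + 1)) K} {c : K} (hc : c ≠ 0)
    (hG : ∀ i, eval z (G i) = c * z i) {P : MvPolynomial (Fin (ν + 1)) K} (hP : eval z P = 0)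
    {β : Fin (ν + 1) → K}
    (hβ : ∀ i k, eval z (pderiv k (G i)) - z i * eval z (pderiv k (G i₀)) =
      β i * eval z (pderiv k P)) :
    ∃ a b, SlowD i₀ z G P (fun j => X j - C (z j) * X i₀) 1 (G i₀) a b := by
  classical
  have h0 : ∀ i, eval z (G i - C (z i) * G i₀ - C (β i) * P) = 0 := by
    intro i
    simp only [map_sub, map_mul, eval_C, hG, hP, hz]
    ring
  choose a ha using fun i => pt_ideal z (G i - C (z i) * G i₀ - C (β i) * P)
  refine ⟨a, fun i => C (β i), by rw [hG, hz, mul_one]; exact hc, fun i k => ?_, fun i y hy hy0 => ?_⟩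
  · have h1 := congrArg (fun p => eval z (pderiv k p)) (ha i)
    simp only [h0, map_zero, zero_add, map_sum, Derivation.leibniz, smul_eq_mul, map_add, map_sub,
      map_mul, eval_X, eval_C, sub_self, zero_mul, pderiv_C, sub_zero, pderiv_X, mul_zero,
      add_zero] at h1
    rw [Finset.sum_eq_single k] at h1
    · simp only [Pi.single_eq_same, map_one, mul_one] at h1
      rw [← h1]
      have h2 := hβ i k
      linear_combination h2
    · intro j _ hj
      rw [Pi.single_eq_of_ne hj]
      simp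
    · intro h
      exact absurd (Finset.mem_univ k) h
  · have h1 := congrArg (eval y) (ha i)
    simp only [h0, map_zero, zero_add, map_sum, map_sub, map_mul, eval_X, eval_C] at h1
    simp only [map_sub, map_mul, eval_X, eval_C, pow_one, hy, mul_one]
    rw [← h1]
    unfold gam
    field_simp
    ring

/-- The induction step. -/
theorem slow_step {i₀ : Fin (ν + 1)} {z : Fin (ν + 1) → K}
    {G : Fin (ν + 1) → MvPolynomial (Fin (ν + 1)) K} {P κ₁ R : MvPolynomial (Fin (ν + 1)) K}
    (hT : Trans i₀ z G P κ₁ R) {U : Fin (ν + 1) → MvPolynomial (Fin (ν + 1)) K}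
    (hU : Par i₀ z P U) {M : ℕ} (hM : 1 ≤ M) {κ : MvPolynomial (Fin (ν + 1)) K}
    {a : Fin (ν + 1) → Fin (ν + 1) → MvPolynomial (Fin (ν + 1)) K}
    {b : Fin (ν + 1) → MvPolynomial (Fin (ν + 1)) K} (h : SlowD i₀ z G P U M κ a b) :
    ∃ U', Par i₀ z P U' ∧ ∃ κ' a' b', SlowD i₀ z G P U' (M + 1) κ' a' b' := by
  classical
  obtain ⟨N, rfl⟩ : ∃ N, M = N + 1 := ⟨M - 1, by omega⟩
  set l : Fin (ν + 1) → K := fun i =>
    eval z κ₁ ^ (N + 1) * eval z (b i) / (eval z κ * eval z R ^ (N + 1)) with hl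
  have hden : eval z κ * eval z R ^ (N + 1) ≠ 0 := mul_ne_zero h.κ_ne (pow_ne_zero _ hT.R_ne)
  have hU' : Par i₀ z P fun i => U i - C (l i) * P ^ (N + 1) := by
    refine ⟨fun i => ?_, fun E hE => ?_⟩
    · rw [map_sub, map_mul, map_pow, hT.P_zero, hU.zero]
      simp
    · obtain ⟨κ', d, c, h1, h2⟩ := hU.gen E hE
      refine ⟨κ', d + (∑ j, c j * C (l j)) * P ^ N, c, h1, fun y hy => ?_⟩
      rw [h2 y hy]
      simp only [map_add, map_sub, map_mul, map_sum, map_pow, eval_C, mul_sub,
        Finset.sum_sub_distrib]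
      have h3 : ∑ x, eval y (c x) * (l x * eval y P ^ (N + 1)) =
          (∑ x, eval y (c x) * l x) * eval y P ^ N * eval y P := by
        rw [mul_assoc, ← pow_succ, Finset.sum_mul]
        exact Finset.sum_congr rfl fun x _ => by ring
      rw [h3]
      ring
  refine ⟨_, hU', ?_⟩
  -- the bracket
  set E : Fin (ν + 1) → MvPolynomial (Fin (ν + 1)) K := fun i =>
    κ₁ ^ (N + 1) * (∑ j, a i j * C (l j) + b i) - C (l i) * κ * R ^ (N + 1) with hE
  have hE0 : ∀ i, eval z (E i) = 0 := by
    intro i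
    simp only [hE, map_sub, map_mul, map_add, map_sum, map_pow, eval_C, h.a_zero, zero_mul,
      Finset.sum_const_zero, zero_add]
    have h1 : l i * (eval z κ * eval z R ^ (N + 1)) = eval z κ₁ ^ (N + 1) * eval z (b i) :=
      div_mul_cancel₀ _ hden
    linear_combination -h1
  choose κ' d c hκ' hrel using fun i => hU'.gen (E i) (hE0 i)
  -- a common denominator
  refine ⟨(∏ i, κ' i) * (κ * κ₁ ^ (N + 1)),
    fun i j => (∏ k ∈ Finset.univ.erase i, κ' k) * (κ' i * κ₁ ^ (N + 1) * a i j +
      P ^ (N + 1) * c i j),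
    fun i => (∏ k ∈ Finset.univ.erase i, κ' k) * d i, ?_, fun i j => ?_, fun i y hy hy0 => ?_⟩
  · rw [map_mul, map_prod, map_mul, map_pow]
    exact mul_ne_zero (Finset.prod_ne_zero_iff.2 fun i _ => hκ' i)
      (mul_ne_zero h.κ_ne (pow_ne_zero _ hT.κ_ne))
  · simp only [map_mul, map_add, map_pow, h.a_zero, hT.P_zero]
    simp
  · have h1 := h.rel i y hy hy0
    have h2 := hT.rel y hy hy0
    have h3 := hrel i y hy
    have h4 : (∏ k, κ' k) = (∏ k ∈ Finset.univ.erase i, κ' k) * κ' i := by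
      rw [Finset.prod_erase_mul _ _ (Finset.mem_univ i)]
    rw [h4]
    have h5 : eval y κ₁ ^ (N + 1) * eval (gam i₀ G y) P ^ (N + 1) =
        eval y R ^ (N + 1) * eval y P ^ (N + 1) := by
      rw [← mul_pow, h2, mul_pow]
    simp only [hE, map_sub, map_mul, map_add, map_sum, map_pow, eval_C] at h3 ⊢
    set u : Fin (ν + 1) → K := fun j => eval y (U j) with hu
    set p := eval y P with hp
    set w := eval y (∏ k ∈ Finset.univ.erase i, κ' k) with hw
    have h6 : ∑ j, w * (eval y (κ' i) * eval y κ₁ ^ (N + 1) * eval y (a i j) +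
        p ^ (N + 1) * eval y (c i j)) * (eval y (U j) - l j * p ^ (N + 1)) =
        w * (eval y (κ' i) * eval y κ₁ ^ (N + 1) * (∑ j, eval y (a i j) * eval y (U j) -
          (∑ j, eval y (a i j) * l j) * p ^ (N + 1)) +
          p ^ (N + 1) * ∑ j, eval y (c i j) * (eval y (U j) - l j * p ^ (N + 1))) := by
      simp only [Finset.mul_sum, Finset.sum_mul, mul_add, mul_sub, Finset.sum_add_distrib,
        Finset.sum_sub_distrib, add_mul]
      have e1 : ∀ j, w * (eval y (κ' i) * eval y κ₁ ^ (N + 1) * eval y (a i j)) * eval y (U j) =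
          w * (eval y (κ' i) * eval y κ₁ ^ (N + 1) * (eval y (a i j) * eval y (U j))) :=
        fun j => by ring
      simp only [e1]
      have e2 : ∀ j, w * (eval y (κ' i) * eval y κ₁ ^ (N + 1) * eval y (a i j)) *
          (l j * p ^ (N + 1)) = w * (eval y (κ' i) * eval y κ₁ ^ (N + 1) *
            (eval y (a i j) * l j * p ^ (N + 1))) := fun j => by ring
      simp only [e2]
      have e3 : ∀ j, w * (p ^ (N + 1) * eval y (c i j)) * eval y (U j) =
          w * (p ^ (N + 1) * (eval y (c i j) * eval y (U j))) := fun j => by ring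
      simp only [e3]
      have e4 : ∀ j, w * (p ^ (N + 1) * eval y (c i j)) * (l j * p ^ (N + 1)) =
          w * (p ^ (N + 1) * (eval y (c i j) * (l j * p ^ (N + 1)))) := fun j => by ring
      simp only [e4]
      ring
    rw [h6]
    have h7 : ∑ j, eval y (c i j) * (eval y (U j) - l j * p ^ (N + 1)) =
        eval y (κ' i) * (eval y κ₁ ^ (N + 1) * (∑ j, eval y (a i j) * l j + eval y (b i)) -
          l i * eval y κ * eval y R ^ (N + 1)) - eval y (d i) * p := by
      rw [h3]
      ring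
    rw [h7]
    linear_combination (w * eval y (κ' i) * eval y κ₁ ^ (N + 1)) * h1 -
      (w * eval y (κ' i) * eval y κ * l i) * h5

/-- Slow functions of every order. -/
theorem exists_slow {i₀ : Fin (ν + 1)} {z : Fin (ν + 1) → K} (hz : z i₀ = 1)
    {G : Fin (ν + 1) → MvPolynomial (Fin (ν + 1)) K} {c : K} (hc : c ≠ 0)
    (hG : ∀ i, eval z (G i) = c * z i) {P κ₁ R : MvPolynomial (Fin (ν + 1)) K}
    (hT : Trans i₀ z G P κ₁ R) {β : Fin (ν + 1) → K}
    (hβ : ∀ i k, eval z (pderiv k (G i)) - z i * eval z (pderiv k (G i₀)) =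
      β i * eval z (pderiv k P)) (M : ℕ) :
    ∃ U, Par i₀ z P U ∧ ∃ κ a b, SlowD i₀ z G P U (M + 1) κ a b := by
  induction M with
  | zero =>
    obtain ⟨a, b, h⟩ := slow_base hz hc hG hT.P_zero hβ
    exact ⟨_, par_coord hz P, _, a, b, h⟩
  | succ M ih =>
    obtain ⟨U, hU, κ, a, b, h⟩ := ih
    exact slow_step hT hU (by omega) h

/-- The expansion of a function. -/
theorem expand {i₀ : Fin (ν + 1)} {z : Fin (ν + 1) → K} {P : MvPolynomial (Fin (ν + 1)) K}
    {U : Fin (ν + 1) → MvPolynomial (Fin (ν + 1)) K} (hU : Par i₀ z P U)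
    (g : MvPolynomial (Fin (ν + 1)) K) (M : ℕ) :
    ∃ (κ γ : MvPolynomial (Fin (ν + 1)) K) (c : Fin (ν + 1) → MvPolynomial (Fin (ν + 1)) K)
      (j : ℕ), eval z κ ≠ 0 ∧ (∀ y : Fin (ν + 1) → K, y i₀ = 1 →
        eval y κ * eval y g = ∑ i, eval y (c i) * eval y (U i) + eval y γ * eval y P ^ j) ∧
        (j = M ∨ j < M ∧ eval z γ ≠ 0) := by
  classical
  induction M with
  | zero => exact ⟨1, g, 0, 0, by simp, fun y _ => by simp, Or.inl rfl⟩
  | succ M ih =>
    obtain ⟨κ, γ, c, j, h1, h2, h3⟩ := ih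
    rcases h3 with h3 | ⟨h3, h4⟩
    · by_cases h4 : eval z γ = 0
      · obtain ⟨κ', d, c', h5, h6⟩ := hU.gen γ h4
        refine ⟨κ' * κ, d, fun i => κ' * c i + P ^ j * c' i, j + 1, ?_, fun y hy => ?_,
          Or.inl (by rw [h3])⟩
        · rw [map_mul]
          exact mul_ne_zero h5 h1
        · have h7 := h2 y hy
          have h8 := h6 y hy
          simp only [map_mul, map_add, map_pow, add_mul, Finset.sum_add_distrib]
          have e1 : ∑ x, eval y κ' * eval y (c x) * eval y (U x) =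
              eval y κ' * ∑ x, eval y (c x) * eval y (U x) := by
            rw [Finset.mul_sum]
            exact Finset.sum_congr rfl fun x _ => by ring
          have e2 : ∑ x, eval y P ^ j * eval y (c' x) * eval y (U x) =
              eval y P ^ j * ∑ x, eval y (c' x) * eval y (U x) := by
            rw [Finset.mul_sum]
            exact Finset.sum_congr rfl fun x _ => by ring
          rw [e1, e2]
          linear_combination (eval y κ') * h7 + (eval y P ^ j) * h8
      · exact ⟨κ, γ, c, j, h1, h2, Or.inr ⟨by omega, h4⟩⟩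
    · exact ⟨κ, γ, c, j, h1, h2, Or.inr ⟨by omega, h4⟩⟩

end Pool.Agent.Helper41.R1
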